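import Mathlib
import Pool.Agent.P.MP_9682d1_al.C.Glue
import Pool.Agent.P.MP_9682d1_al.A.A3

set_option autoImplicit false

namespace Pool.Agent.P.MP_9682d1_al.T

open Pool.Agent.P.MP_9682d1_al.C

universe u

variable {G : Type*} [Group G]

/-- the generic setting -/
structure Gd (X : Set G) : Prop where
  cj : Cj X
  pw : ∀ x ∈ X, ∀ n : ℤ, x ^ n ∈ X
  re : ∀ x ∈ X, RE 4 x
  cl : ∀ x ∈ X, ∀ y ∈ X, Cl3 ({x, y} : Set G)
  tf : ∀ x ∈ Subgroup.closure X, x ^ 6 = 1 → x = 1

theorem Gd.inv {X : Set G} (h : Gd X) {x : G} (hx : x ∈ X) : x⁻¹ ∈ X := by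
  simpa using h.pw x hx (-1)

theorem cm_pow_of_comm {x s : G} (h : Commute (cm x s) x) (n : ℕ) :
    cm (x ^ n) s = cm x s ^ n := by
  induction n with
  | zero => simp
  | succ n ih =>
    rw [pow_succ, cm_mul_left, ih, mul_assoc x⁻¹, (h.pow_left n).eq, inv_mul_cancel_left, pow_succ]

/-- a nilpotent group whose centre has no elements of order 2, 3 has none -/
theorem tf_of_centre (N : Type u) [Group N] [Group.IsNilpotent N] :
    (∀ z ∈ Subgroup.center N, z ^ 6 = 1 → z = 1) →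
      ∀ x : N, x ^ 6 ∈ Subgroup.center N → x ∈ Subgroup.center N := by
  refine Group.nilpotent_center_quotient_ind
    (P := fun N _ _ => (∀ z ∈ Subgroup.center N, z ^ 6 = 1 → z = 1) →
      ∀ x : N, x ^ 6 ∈ Subgroup.center N → x ∈ Subgroup.center N) N ?_ ?_
  · intro N _ _ _ x _
    exact Subgroup.mem_center_iff.mpr fun g => Subsingleton.elim _ _
  · intro N _ _ ih hz
    have key : ∀ x : N, (QuotientGroup.mk x : N ⧸ Subgroup.center N) ∈ Subgroup.center _ →
        x ^ 6 ∈ Subgroup.center N → x ∈ Subgroup.center N := by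
      intro x hx h6
      refine Subgroup.mem_center_iff.mpr fun s => (cm_eq_one.mp ?_).symm.eq
      have c : cm x s ∈ Subgroup.center N := by
        rw [← QuotientGroup.eq_one_iff, ← QuotientGroup.mk'_apply, map_cm, cm_eq_one]
        exact (Subgroup.mem_center_iff.mp hx _).symm
      refine hz _ c ?_
      rw [← cm_pow_of_comm (Subgroup.mem_center_iff.mp c x).symm, cm_eq_one]
      exact (Subgroup.mem_center_iff.mp h6 s).symm
    intro x h6
    refine key x (ih ?_ _ ?_) h6
    · intro z hz' z6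
      obtain ⟨y, rfl⟩ := QuotientGroup.mk_surjective z
      rw [QuotientGroup.eq_one_iff]
      exact key y hz' (by rwa [← QuotientGroup.eq_one_iff, QuotientGroup.mk_pow])
    · rw [← QuotientGroup.mk_pow, (QuotientGroup.eq_one_iff _).mpr h6]
      exact one_mem _

theorem root_comm {G : Type u} [Group G] (tf : ∀ y : G, y ^ 6 = 1 → y = 1) {s x : G}
    (hs : RE 4 s) (h : Commute (x ^ 6) s) : Commute x s := by
  have := A.A0 G s x hs
  let N := Subgroup.closure ({s, x} : Set G)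
  have ms : s ∈ N := Subgroup.subset_closure (by simp)
  have mx : x ∈ N := Subgroup.subset_closure (by simp)
  have k := tf_of_centre N (fun z _ hz => Subtype.ext (tf _ (by simpa using congrArg Subtype.val hz)))
    ⟨x, mx⟩ (by
      refine Subgroup.mem_center_iff.mpr fun g => Subtype.ext ?_
      have : cm (x ^ 6) (g : G) ∈ (⊥ : Subgroup G) := cm_closure (T := {s, x}) (by
        rintro t (rfl | rfl)
        · exact cm_eq_one.mpr h
        · exact cm_eq_one.mpr (Commute.pow_self _ _)) g.2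
      simpa using (cm_eq_one.mp this).symm.eq)
  exact congrArg Subtype.val (Subgroup.mem_center_iff.mp k ⟨s, ms⟩).symm

theorem tf_ucs {H : Type u} [Group H] {T : Set H} (hc : Subgroup.closure T = ⊤)
    (hre : ∀ t ∈ T, RE 4 t) (tf : ∀ y : H, y ^ 6 = 1 → y = 1) (n : ℕ) :
    ∀ x : H, x ^ 6 ∈ Subgroup.upperCentralSeries H n → x ∈ Subgroup.upperCentralSeries H n := by
  induction n with
  | zero => simpa using tf
  | succ n ih =>
    intro x hx
    refine mem_ucs_gen hc fun t ht => ?_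
    let φ := QuotientGroup.mk' (Subgroup.upperCentralSeries H n)
    have e : ∀ y, φ y = 1 ↔ y ∈ Subgroup.upperCentralSeries H n := QuotientGroup.eq_one_iff
    rw [← e, map_cm, cm_eq_one]
    refine root_comm (fun y hy => ?_) ((hre t ht).map (QuotientGroup.mk'_surjective _)) ?_
    · obtain ⟨y, rfl⟩ := QuotientGroup.mk'_surjective _ y
      exact (e y).mpr (ih y ((e _).mp (by rwa [map_pow])))
    · rw [← map_pow, ← cm_eq_one, ← map_cm, e]
      exact cm_mem_ucs hx t

/-- central peeling that keeps the absence of elements of order 2, 3 -/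
theorem nil_peel {H : Type u} [Group H] {T : Set H} (hT : T.Finite) (hc : Subgroup.closure T = ⊤)
    (hre : ∀ t ∈ T, RE 4 t) (tf : ∀ y : H, y ^ 6 = 1 → y = 1)
    (h : ∀ (Q : Type u) [Group Q] (φ : H →* Q), Function.Surjective φ →
      (∀ y : Q, y ^ 6 = 1 → y = 1) →
      (∀ q : Q, (∀ t ∈ T, cm q (φ t) = 1) → q = 1) → ∀ t ∈ T, φ t = 1) :
    Group.IsNilpotent H := by
  have hd : Directed (· ≤ ·) (Subgroup.upperCentralSeries H) :=
    (Subgroup.upperCentralSeries_mono H).directed_le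
  let Z : Subgroup H := ⨆ n, Subgroup.upperCentralSeries H n
  have hZ : ∀ g, g ∈ Z ↔ ∃ n, g ∈ Subgroup.upperCentralSeries H n := fun g =>
    Subgroup.mem_iSup_of_directed hd
  have fin : ∀ f : H → H, (∀ t ∈ T, f t ∈ Z) →
      ∃ n, ∀ t ∈ T, f t ∈ Subgroup.upperCentralSeries H n := by
    intro f hf
    choose! n hn using fun t ht => (hZ _).mp (hf t ht)
    obtain ⟨N, hN⟩ := (hT.image n).bddAbove
    exact ⟨N, fun t ht => Subgroup.upperCentralSeries_mono H (hN ⟨t, ht, rfl⟩) (hn t ht)⟩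
  have : Z.Normal := ⟨fun g hg k => by
    obtain ⟨n, hn⟩ := (hZ g).mp hg
    exact (hZ _).mpr ⟨n, Subgroup.Normal.conj_mem inferInstance g hn k⟩⟩
  have key := h (H ⧸ Z) (QuotientGroup.mk' Z) (QuotientGroup.mk'_surjective Z) (by
    intro q hq
    obtain ⟨g, rfl⟩ := QuotientGroup.mk'_surjective Z q
    rw [← map_pow] at hq
    obtain ⟨n, hn⟩ := (hZ _).mp ((QuotientGroup.eq_one_iff _).mp hq)
    exact (QuotientGroup.eq_one_iff _).mpr ((hZ _).mpr ⟨n, tf_ucs hc hre tf n g hn⟩)) (by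
    intro q hq
    obtain ⟨g, rfl⟩ := QuotientGroup.mk'_surjective Z q
    obtain ⟨n, hn⟩ := fin (fun t => cm g t) fun t ht => by
      have := hq t ht
      rw [← map_cm] at this
      exact (QuotientGroup.eq_one_iff _).mp this
    exact (QuotientGroup.eq_one_iff _).mpr ((hZ _).mpr ⟨n + 1, mem_ucs_gen hc hn⟩))
  obtain ⟨n, hn⟩ := fin id fun t ht => (QuotientGroup.eq_one_iff _).mp (key t ht)
  exact ⟨n, by rw [eq_top_iff, ← hc, Subgroup.closure_le]; exact hn⟩

/-- a centreless group generated by three elements of a generic set -/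
structure St (X : Set G) (a b c : G) : Prop where
  gd : Gd X
  ha : a ∈ X
  hb : b ∈ X
  hc : c ∈ X
  tf : ∀ y : G, y ^ 6 = 1 → y = 1
  cen : ∀ y : G, cm y a = 1 → cm y b = 1 → cm y c = 1 → y = 1

theorem St.swap {X : Set G} {a b c : G} (h : St X a b c) : St X b a c :=
  ⟨h.gd, h.hb, h.ha, h.hc, h.tf, fun y h1 h2 h3 => h.cen y h2 h1 h3⟩

theorem nil_three {G : Type u} [Group G] {X : Set G} (h : Gd X) {a b c : G} (ha : a ∈ X)
    (hb : b ∈ X) (hc : c ∈ X)
    (H : ∀ (Q : Type u) [Group Q] (Y : Set Q) (a' b' c' : Q), St Y a' b' c' →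
      (Commute a b → Commute a' b') → (P2 a b → P2 a' b') → a' = 1 ∧ b' = 1 ∧ c' = 1) :
    Group.IsNilpotent (Subgroup.closure ({a, b, c} : Set G)) := by
  let K := Subgroup.closure ({a, b, c} : Set G)
  have hK : K ≤ Subgroup.closure X := Subgroup.closure_mono (by
    rintro t (rfl | rfl | rfl) <;> assumption)
  let a0 : K := ⟨a, Subgroup.subset_closure (by simp)⟩
  let b0 : K := ⟨b, Subgroup.subset_closure (by simp)⟩
  let c0 : K := ⟨c, Subgroup.subset_closure (by simp)⟩
  have hT : (Subtype.val ⁻¹' {a, b, c} : Set K) = {a0, b0, c0} := by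
    ext t
    simp [a0, b0, c0, Subtype.ext_iff]
  have hc' : Subgroup.closure ({a0, b0, c0} : Set K) = ⊤ := by
    rw [← hT]; exact Subgroup.closure_closure_coe_preimage
  have re0 : ∀ t : K, (t : G) ∈ X → RE 4 t := fun t ht =>
    RE.of_map (f := K.subtype) K.subtype_injective (h.re _ ht)
  refine nil_peel (T := {a0, b0, c0}) (Set.toFinite _) hc' ?_
    (fun y hy => Subtype.ext (h.tf _ (hK y.2) (by simpa using congrArg Subtype.val hy))) ?_
  · rintro t (rfl | rfl | rfl)
    exacts [re0 _ ha, re0 _ hb, re0 _ hc]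
  intro Q _ φ hφ tf cen
  have := H Q (φ '' {t : K | (t : G) ∈ X}) (φ a0) (φ b0) (φ c0)
    ⟨⟨?_, ?_, ?_, ?_, fun y _ => tf y⟩, ⟨a0, ha, rfl⟩, ⟨b0, hb, rfl⟩, ⟨c0, hc, rfl⟩, tf,
      fun y h1 h2 h3 => cen y (by rintro t (rfl | rfl | rfl) <;> assumption)⟩
    (fun k => Commute.map (Subtype.ext k : Commute a0 b0) φ) ?_
  · rintro t (rfl | rfl | rfl)
    exacts [this.1, this.2.1, this.2.2]
  · rintro _ ⟨t, ht, rfl⟩ g
    obtain ⟨g, rfl⟩ := hφ g
    exact ⟨g⁻¹ * t * g, h.cj _ ht g, by simp⟩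
  · rintro _ ⟨t, ht, rfl⟩ n
    refine ⟨t ^ n, ?_, by simp⟩
    show ((t ^ n : K) : G) ∈ X
    rw [SubgroupClass.coe_zpow]
    exact h.pw _ ht n
  · rintro _ ⟨t, ht, rfl⟩
    exact (re0 t ht).map hφ
  · rintro _ ⟨s, hs, rfl⟩ _ ⟨t, ht, rfl⟩
    have k : Cl3 ({s, t} : Set K) := Cl3.of_image (f := K.subtype) K.subtype_injective (by
      rw [Set.image_insert_eq, Set.image_singleton]
      exact h.cl _ hs _ ht)
    simpa only [Set.image_insert_eq, Set.image_singleton] using k.image φ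
  · intro p
    have p1 : Commute (cm a0 b0) a0 := Subtype.ext (by simpa [coe_cm] using p.1.eq)
    have p2 : Commute (cm a0 b0) b0 := Subtype.ext (by simpa [coe_cm] using p.2.eq)
    exact ⟨by simpa only [map_cm] using p1.map φ, by simpa only [map_cm] using p2.map φ⟩

end Pool.Agent.P.MP_9682d1_al.T
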