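import Mathlib
import Pool.Agent.P.MP_9682d1_al.T.Defs
import Pool.Agent.P.MP_9682d1_al.T4.Lattice
import Pool.Agent.P.MP_9682d1_al.A.IdM
import Pool.Agent.P.MP_9682d1_al.KB.GE
import Pool.Agent.P.MP_9682d1_al.KB.GA2
import Pool.Agent.P.MP_9682d1_al.KB.GLA

set_option autoImplicit false

namespace Pool.Agent.P.MP_9682d1_al.T

open Pool.Agent.P.MP_9682d1_al.C hiding cm
open Pool.Agent.P.MP_9682d1_al.KB (cm cj)

universe u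

variable {G : Type u} [Group G] {X : Set G}

theorem Gd.m (h : Gd X) {u : G} (hu : u ∈ X) (x : G) : KB.cj u x ∈ X := h.cj u hu x

theorem Gd.sq (h : Gd X) {u : G} (hu : u ∈ X) : u ^ 2 ∈ X := by
  simpa using h.pw u hu (2 : ℕ)

theorem r4 (h : Gd X) {u : G} (hu : u ∈ X) (x : G) : cm (cm (cm (cm u x) x) x) x = 1 :=
  h.re u hu x

theorem pr (h : Gd X) {u v : G} (hu : u ∈ X) (hv : v ∈ X) :
    cm (cm (cm u v) v) v = 1 ∧ cm (cm (cm u v) v) u = 1 ∧ cm (cm (cm u v) u) v = 1 ∧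
      cm (cm (cm u v) u) u = 1 :=
  have k := h.cl u hu v hv
  ⟨k u (by simp) v (by simp) v (by simp) v (by simp), k u (by simp) v (by simp) v (by simp) u (by simp),
    k u (by simp) v (by simp) u (by simp) v (by simp), k u (by simp) v (by simp) u (by simp) u (by simp)⟩

theorem mem1 (a g : G) : a ∈ Subgroup.closure ({a, g} : Set G) := Subgroup.subset_closure (by simp)

theorem mem2 (a g : G) : g ∈ Subgroup.closure ({a, g} : Set G) := Subgroup.subset_closure (by simp)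

theorem ee (h : Gd X) (tf : ∀ y : G, y ^ 6 = 1 → y = 1) {a : G} (ha : a ∈ X) (g : G) :
    cm (cm (cm (cj a g) a) a) a = (1 : G) ∧
    cm (cm (cm (cj a g) a) a) (cj a g) = (1 : G) ∧
    cm (cm (cm (cj a g) a) a) (cj a g⁻¹) = (1 : G) ∧
    cm (cm (cm (cj a g) a) (cj a g)) a = (1 : G) ∧
    cm (cm (cm (cj a g) a) (cj a g)) (cj a g) = (1 : G) ∧
    cm (cm (cm (cj a g) a) (cj a g)) (cj a g⁻¹) = (1 : G) ∧
    cm (cm (cm (cj a g) a) (cj a g⁻¹)) a = (1 : G) ∧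
    cm (cm (cm (cj a g) a) (cj a g⁻¹)) (cj a g) = (1 : G) ∧
    cm (cm (cm (cj a g) a) (cj a g⁻¹)) (cj a g⁻¹) = (1 : G) ∧
    cm (cm (cm (cj a g⁻¹) a) a) a = (1 : G) ∧
    cm (cm (cm (cj a g⁻¹) a) a) (cj a g) = (1 : G) ∧
    cm (cm (cm (cj a g⁻¹) a) a) (cj a g⁻¹) = (1 : G) ∧
    cm (cm (cm (cj a g⁻¹) a) (cj a g)) a = (1 : G) ∧
    cm (cm (cm (cj a g⁻¹) a) (cj a g)) (cj a g) = (1 : G) ∧
    cm (cm (cm (cj a g⁻¹) a) (cj a g)) (cj a g⁻¹) = (1 : G) ∧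
    cm (cm (cm (cj a g⁻¹) a) (cj a g⁻¹)) a = (1 : G) ∧
    cm (cm (cm (cj a g⁻¹) a) (cj a g⁻¹)) (cj a g) = (1 : G) ∧
    cm (cm (cm (cj a g⁻¹) a) (cj a g⁻¹)) (cj a g⁻¹) = (1 : G) ∧
    cm (cm (cm (cj a g) (cj a g⁻¹)) a) a = (1 : G) ∧
    cm (cm (cm (cj a g) (cj a g⁻¹)) a) (cj a g) = (1 : G) ∧
    cm (cm (cm (cj a g) (cj a g⁻¹)) a) (cj a g⁻¹) = (1 : G) ∧
    cm (cm (cm (cj a g) (cj a g⁻¹)) (cj a g)) a = (1 : G) ∧
    cm (cm (cm (cj a g) (cj a g⁻¹)) (cj a g)) (cj a g) = (1 : G) ∧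
    cm (cm (cm (cj a g) (cj a g⁻¹)) (cj a g)) (cj a g⁻¹) = (1 : G) ∧
    cm (cm (cm (cj a g) (cj a g⁻¹)) (cj a g⁻¹)) a = (1 : G) ∧
    cm (cm (cm (cj a g) (cj a g⁻¹)) (cj a g⁻¹)) (cj a g) = (1 : G) ∧
    cm (cm (cm (cj a g) (cj a g⁻¹)) (cj a g⁻¹)) (cj a g⁻¹) = (1 : G) ∧
    ((cm (cm (cj a g) a) (cj a g⁻¹)) * (cm (cm a (cj a g⁻¹)) a)) = ((cm (cm (cj a g) a) a) * (cm (cm a (cj a g⁻¹)) (cj a g⁻¹))) ∧
    ((cm (cm a (cj a g⁻¹)) (cj a g)) * (cm (cm (cj a g) a) a)) = ((cm (cm (cj a g) a) (cj a g)) * (cm (cm a (cj a g⁻¹)) a)) ∧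
    (((cm (cm (cj a g) a) a) ^ (5 : ℕ)) * (cm (cm (cj a g) a) (cj a g))) = ((cm (cm a (cj a g⁻¹)) (cj a g⁻¹)) * ((cm (cm a (cj a g⁻¹)) a) ^ (5 : ℕ))) ∧
    ((cm (cm (cj a g) (cj a g⁻¹)) (cj a g⁻¹)) * ((cm (cm a (cj a g⁻¹)) a) ^ (2 : ℕ))) = ((cm (cm (cj a g) a) (cj a g)) * ((cm (cm a (cj a g⁻¹)) (cj a g⁻¹)) ^ (3 : ℕ))) ∧
    ((cm (cm (cj a g) (cj a g⁻¹)) (cj a g)) * ((cm (cm (cj a g) a) a) ^ (2 : ℕ))) = (((cm (cm (cj a g) a) (cj a g)) ^ (3 : ℕ)) * (cm (cm a (cj a g⁻¹)) (cj a g⁻¹))) ∧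
    ((cm (cj a (g ^ (2 : ℕ))) (cj a g)) * ((cm a (cj a g⁻¹)) ^ (3 : ℕ))) = (((cm (cj a g) a) ^ (3 : ℕ)) * (cm (cj a g⁻¹) (cj a (g⁻¹ ^ (2 : ℕ))))) ∧
    (((((a⁻¹ * (cj a g⁻¹)) * a⁻¹) * (cj a g)) * (cj a (g ^ (2 : ℕ)))⁻¹) * (cj a g)) = ((((((cj a (g ^ (2 : ℕ)))⁻¹ * (cj a g)) * a⁻¹) * (cj a g)) * a⁻¹) * (cj a g⁻¹)) ∧
    (((((((a⁻¹ * (cj a g⁻¹)) * (cj a (g⁻¹ ^ (2 : ℕ)))⁻¹) * (cj a g⁻¹)) * a⁻¹) * (cj a g⁻¹)) * a⁻¹) * (cj a g)) = ((((((((cj a g)⁻¹ * a) * (cj a g⁻¹)⁻¹) * a) * (cj a g)⁻¹) * a) * (cj a g)⁻¹) * (cj a (g ^ (2 : ℕ)))) :=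
  KB.GE.main _ (A.A0 G a g (h.re a ha)) a g (mem1 a g) (mem2 a g) (fun x _ => tf x)
    (fun x _ => r4 h ha x) (fun x _ => r4 h (h.inv ha) x) (fun x _ => r4 h (h.sq ha) x)
    (fun x _ => (pr h (h.m ha x) ha).1) (fun x _ => (pr h (h.m ha x) ha).2.1) (fun x _ => (pr h (h.m ha x) ha).2.2.2)

theorem a2s (h : Gd X) {a : G} (ha : a ∈ X) (g : G) (p0 : cm (cm (cj a g) a) a = 1)
    (p1 : cm (cm (cj a g) a) (cj a g) = 1) :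
    cm (cm (cj a g) a) (cj a g⁻¹) = (1 : G) ∧
    cm (cm (cj a g) a) (cj a (g ^ (2 : ℕ))) = (1 : G) ∧
    cm (cm (cj a g) a) (cj a (g⁻¹ ^ (2 : ℕ))) = (1 : G) ∧
    cm (cm (cj a g) (cj a g⁻¹)) a = (1 : G) ∧
    cm (cm (cj a g) (cj a g⁻¹)) (cj a g) = (1 : G) ∧
    cm (cm (cj a g) (cj a g⁻¹)) (cj a g⁻¹) = (1 : G) ∧
    cm (cm (cj a g) (cj a g⁻¹)) (cj a (g ^ (2 : ℕ))) = (1 : G) ∧
    cm (cm (cj a g) (cj a g⁻¹)) (cj a (g⁻¹ ^ (2 : ℕ))) = (1 : G) ∧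
    cm (cm (cm (cm (cj a g) a) g) g) g = (1 : G) :=
  KB.GA2.main _ (A.A0 G a g (h.re a ha)) a g (mem1 a g) (mem2 a g) p0 p1
    (fun x _ => r4 h ha x) (fun x _ => r4 h (h.inv ha) x)

theorem la (h : Gd X) {a : G} (ha : a ∈ X) (g : G) (p0 : cm (cj a g) a = 1) :
    cm (cj a g) (cj a g⁻¹) = (1 : G) ∧
    cm (cj a (g * g)) (cj a g⁻¹) = (1 : G) :=
  KB.GLA.main _ (A.A0 G a g (h.re a ha)) a g (mem1 a g) (mem2 a g) p0 (fun x _ => r4 h ha x)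

theorem cm1 {u v : G} : cm u v = 1 ↔ Commute u v := cm_eq_one

theorem t3 (h : Gd X) {u : G} (hu : u ∈ X) (x y : G) (p0 : cm (cm u x) u = 1)
    (p1 : cm (cm u x) x = 1) (p2 : cm u y = 1) : cm (cm u x) (cj (cm u x) y) = 1 := by
  rw [cm1] at p0 p1 p2 ⊢
  have e1 : x⁻¹ * u * x = u * cm u x := by simp [cm]
  have e2 : x * u * x⁻¹ = u * (cm u x)⁻¹ := by
    calc x * u * x⁻¹ = x * (u * cm u x) * ((cm u x)⁻¹ * x⁻¹) := by group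
      _ = x * (x⁻¹ * u * x) * (x⁻¹ * (cm u x)⁻¹) := by rw [e1, p1.inv_inv.eq]
      _ = u * (cm u x)⁻¹ := by group
  have e3 : cj u (y⁻¹ * x) = u * cm u x := by
    rw [← e1]
    calc cj u (y⁻¹ * x) = x⁻¹ * (y * u) * y⁻¹ * x := by unfold cj; group
      _ = x⁻¹ * u * x := by rw [← p2.eq]; group
  have e4 : cj u (y⁻¹ * x)⁻¹ = u * (cj (cm u x) y)⁻¹ := by
    calc cj u (y⁻¹ * x)⁻¹ = y⁻¹ * (x * u * x⁻¹) * y := by unfold cj; group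
      _ = y⁻¹ * (u * y) * (cj (cm u x) y)⁻¹ := by rw [e2]; unfold cj; group
      _ = u * (cj (cm u x) y)⁻¹ := by rw [p2.eq]; group
  have k := cm1.mp (la h hu (y⁻¹ * x) (by
    rw [e3, cm1]; exact (Commute.refl u).mul_left p0)).1
  rw [e3, e4] at k
  have c1 : Commute u (cj (cm u x) y) := (p2.inv_right.mul_right p0.symm).mul_right p2
  have k1 : Commute (cm u x) (u * (cj (cm u x) y)⁻¹) := by
    have := ((Commute.refl u).mul_right c1.inv_right).inv_left.mul_left k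
    rwa [inv_mul_cancel_left] at this
  have := (p0.inv_right.mul_right k1).inv_right
  rwa [inv_mul_cancel_left, inv_inv] at this

theorem w3 (h : Gd X) {u : G} (hu : u ∈ X) (x y : G) (p0 : cm u y = 1) (p1 : cm (cj u x) y = 1)
    (p2 : cm (cj u x⁻¹) y = 1) : cm (cj u (x * x)) y = 1 ∧ cm (cj u (x⁻¹ * x⁻¹)) y = 1 := by
  rw [cm1] at p0 p1 p2
  have := A.w3_step (a := cj u x⁻¹) (h.re _ (h.m hu _)) x y (cj u (x⁻¹ * x⁻¹)) u (cj u x)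
    (cj u (x * x)) (by simp [cj, A.cj, mul_assoc]) (by unfold cj A.cj; group) rfl
    (by unfold cj A.cj; group) p2.symm p0.symm p1.symm
  exact ⟨cm1.mpr this.1.symm, cm1.mpr this.2.symm⟩

variable {a b c : G}

theorem tf2 (s : St X a b c) (x : G) (p : x ^ 2 = 1) : x = 1 :=
  s.tf x (by rw [show 6 = 2 * 3 from rfl, pow_mul, p, one_pow])

theorem tf3 (s : St X a b c) (x : G) (p : x ^ 3 = 1) : x = 1 :=
  s.tf x (by rw [show 6 = 3 * 2 from rfl, pow_mul, p, one_pow])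

theorem rt2 (s : St X a b c) {u : G} (hu : u ∈ X) (x : G) (p : cm (x ^ 2) u = 1) : cm x u = 1 :=
  cm1.mpr (root_comm s.tf (s.gd.re u hu) (by
    rw [show 6 = 2 * 3 from rfl, pow_mul]; exact (cm1.mp p).pow_left 3))

theorem rt3 (s : St X a b c) {u : G} (hu : u ∈ X) (x : G) (p : cm (x ^ 3) u = 1) : cm x u = 1 :=
  cm1.mpr (root_comm s.tf (s.gd.re u hu) (by
    rw [show 6 = 3 * 2 from rfl, pow_mul]; exact (cm1.mp p).pow_left 2))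

/-- a line of the generic set -/
structure Ln (X : Set G) (s e : G) : Prop where
  c : cm s e = 1
  m0 : s ∈ X
  m1 : s * e ∈ X
  m2 : s * e⁻¹ ∈ X
  m3 : s * e ^ 2 ∈ X

theorem ln2 (h : Gd X) {s : G} (hs : s ∈ X) (w : G) (p0 : cm (cm s w) s = 1)
    (p1 : cm (cm s w) w = 1) : Ln X s (cm s w) := by
  have p : P2 s w := ⟨cm1.mp p0, cm1.mp p1⟩
  have k : ∀ n : ℤ, s * cm s w ^ n ∈ X := fun n => by
    have := h.cj s hs (w ^ n)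
    rwa [T4.P2_cj_zpow p] at this
  exact ⟨cm1.mpr p.1.symm, hs, by simpa using k 1, by simpa using k (-1),
    by simpa using k (2 : ℕ)⟩

theorem ln1 (h : Gd X) {s : G} (hs : s ∈ X) (w : G) (p0 : cm (cm w s) s = 1)
    (p1 : cm (cm w s) w = 1) : Ln X s (cm w s) := by
  have p : P2 s w := P2.symm ⟨cm1.mp p1, cm1.mp p0⟩
  have k : ∀ n : ℤ, s * cm w s ^ n ∈ X := fun n => by
    have := h.cj s hs (w ^ (-n))
    rwa [T4.P2_cj_zpow p, ← cm_inv w s, inv_zpow', neg_neg] at this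
  exact ⟨cm1.mpr (cm1.mp p0).symm, hs, by simpa using k 1, by simpa using k (-1),
    by simpa using k (2 : ℕ)⟩

end Pool.Agent.P.MP_9682d1_al.T
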