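import Mathlib
import Pool.Agent.P.MP_9682d1_al.T.Laws
import Pool.Agent.P.MP_9682d1_al.KB.G5a
import Pool.Agent.P.MP_9682d1_al.KB.G5b
import Pool.Agent.P.MP_9682d1_al.KB.G5c
import Pool.Agent.P.MP_9682d1_al.KB.GLn

set_option autoImplicit false
set_option linter.unusedVariables false

namespace Pool.Agent.P.MP_9682d1_al.T

open Pool.Agent.P.MP_9682d1_al.C hiding cm
open Pool.Agent.P.MP_9682d1_al.KB (cm cj)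

universe u

variable {G : Type u} [Group G] {X : Set G} {a b c : G}

theorem g5a (s : St X a b c) (hab : cm a b = 1) :
    (cm (cm (cm c b) b) a) = (1 : G) :=
  have h := s.gd
  have ha := s.ha
  have hb := s.hb
  have hc := s.hc
  KB.G5a.main a b c
    (fun x p0 => (la h ha _ p0).1)
    (fun x p0 => (la h ha _ p0).2)
    (fun x _ => r4 h ha _)
    (fun x y p0 p1 p2 => t3 h ha _ _ p0 p1 p2)
    (fun x y _ _ _ => r4 h ha _)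
    (fun x p0 => (la h hb _ p0).1)
    (fun x y p0 p1 p2 => t3 h hb _ _ p0 p1 p2)
    (fun x p0 => (la h hc _ p0).1)
    (fun x p0 => (la h hc _ p0).2)
    (fun x _ => r4 h hc _)
    (fun x y p0 p1 p2 => t3 h hc _ _ p0 p1 p2)
    (fun x y p0 p1 p2 => (w3 h hc _ _ p0 p1 p2).1)
    (fun x y p0 p1 p2 => (w3 h hc _ _ p0 p1 p2).2)
    (fun x p0 p1 => (a2s h ha _ p0 p1).1)
    (fun x p0 p1 => (a2s h ha _ p0 p1).2.1)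
    (fun x p0 p1 => (a2s h ha _ p0 p1).2.2.1)
    (fun x p0 p1 => (a2s h ha _ p0 p1).2.2.2.1)
    (fun x p0 p1 => (a2s h ha _ p0 p1).2.2.2.2.1)
    (fun x p0 p1 => (a2s h ha _ p0 p1).2.2.2.2.2.1)
    (fun x p0 p1 => (a2s h ha _ p0 p1).2.2.2.2.2.2.1)
    (fun x p0 p1 => (a2s h ha _ p0 p1).2.2.2.2.2.2.2.1)
    (fun x p0 p1 => (a2s h ha _ p0 p1).2.2.2.2.2.2.2.2)
    (fun x p0 p1 => (a2s h hb _ p0 p1).1)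
    (fun x p0 p1 => (a2s h hb _ p0 p1).2.1)
    (fun x p0 p1 => (a2s h hb _ p0 p1).2.2.1)
    (fun x p0 p1 => (a2s h hb _ p0 p1).2.2.2.1)
    (fun x p0 p1 => (a2s h hb _ p0 p1).2.2.2.2.2.1)
    (fun x p0 p1 => (a2s h hb _ p0 p1).2.2.2.2.2.2.2.1)
    (fun x p0 p1 => (a2s h hc _ p0 p1).1)
    (fun x p0 p1 => (a2s h hc _ p0 p1).2.1)
    (fun x p0 p1 => (a2s h hc _ p0 p1).2.2.1)
    (fun x p0 p1 => (a2s h hc _ p0 p1).2.2.2.1)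
    (fun x p0 p1 => (a2s h hc _ p0 p1).2.2.2.2.1)
    (fun x p0 p1 => (a2s h hc _ p0 p1).2.2.2.2.2.1)
    (fun x p0 p1 => (a2s h hc _ p0 p1).2.2.2.2.2.2.1)
    (fun x p0 p1 => (a2s h hc _ p0 p1).2.2.2.2.2.2.2.1)
    (fun x p0 p1 => (a2s h hc _ p0 p1).2.2.2.2.2.2.2.2)
    (fun x p0 p1 p2 => s.cen x p0 p1 p2)
    (fun x y p0 p1 p2 => s.cen _ p0 p1 p2)
    (fun x p0 => rt3 s hc x p0)
    (hab)
    (fun x => (pr h (h.m ha x) ha).1)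
    (fun x => (pr h (h.m ha x) ha).2.1)
    (fun x => (pr h (h.m ha x) ha).2.2.1)
    (fun x => (pr h (h.m ha x) ha).2.2.2)
    (fun x => (pr h (h.m ha x) hb).1)
    (fun x => (pr h (h.m ha x) hb).2.1)
    (fun x => (pr h (h.m ha x) hb).2.2.1)
    (fun x => (pr h (h.m ha x) hb).2.2.2)
    (fun x => (pr h (h.m ha x) hc).1)
    (fun x => (pr h (h.m ha x) hc).2.1)
    (fun x => (pr h (h.m ha x) hc).2.2.1)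
    (fun x => (pr h (h.m ha x) hc).2.2.2)
    (fun x => (pr h (h.m hb x) ha).1)
    (fun x => (pr h (h.m hb x) ha).2.1)
    (fun x => (pr h (h.m hb x) ha).2.2.1)
    (fun x => (pr h (h.m hb x) ha).2.2.2)
    (fun x => (pr h (h.m hb x) hb).1)
    (fun x => (pr h (h.m hb x) hb).2.1)
    (fun x => (pr h (h.m hb x) hb).2.2.1)
    (fun x => (pr h (h.m hb x) hb).2.2.2)
    (fun x => (pr h (h.m hb x) hc).1)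
    (fun x => (pr h (h.m hb x) hc).2.1)
    (fun x => (pr h (h.m hb x) hc).2.2.1)
    (fun x => (pr h (h.m hb x) hc).2.2.2)
    (fun x => (pr h (h.m hc x) ha).1)
    (fun x => (pr h (h.m hc x) ha).2.1)
    (fun x => (pr h (h.m hc x) ha).2.2.1)
    (fun x => (pr h (h.m hc x) ha).2.2.2)
    (fun x => (pr h (h.m hc x) hb).1)
    (fun x => (pr h (h.m hc x) hb).2.1)
    (fun x => (pr h (h.m hc x) hb).2.2.1)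
    (fun x => (pr h (h.m hc x) hb).2.2.2)
    (fun x => (pr h (h.m hc x) hc).1)
    (fun x => (pr h (h.m hc x) hc).2.1)
    (fun x => (pr h (h.m hc x) hc).2.2.1)
    (fun x => (pr h (h.m hc x) hc).2.2.2)
    (fun x => (ee h s.tf ha _).2.2.2.2.2.2.2.2.2.2.2.2.2.2.2.2.2.2.2.2.2.2.2.2.2.2.2.2.2.2.2.2.2.1)
    (fun x => (ee h s.tf ha _).2.2.2.2.2.2.2.2.2.2.2.2.2.2.2.2.2.2.2.2.2.2.2.2.2.2.2.2.2.2.2.2.2.2)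
    (fun x => by simpa only [inv_inv] using (ee h s.tf (h.inv ha) x).2.2.2.2.2.2.2.2.2.2.2.2.2.2.2.2.2.2.2.2.2.2.2.2.2.2.2.2.2.2.2.2.2.1)
    (fun x => by simpa only [inv_inv] using (ee h s.tf (h.inv ha) x).2.2.2.2.2.2.2.2.2.2.2.2.2.2.2.2.2.2.2.2.2.2.2.2.2.2.2.2.2.2.2.2.2.2)
    (fun x => (ee h s.tf ha _).1)
    (fun x => (ee h s.tf ha _).2.2.1)
    (fun x => (ee h s.tf ha _).2.2.2.1)
    (fun x => (ee h s.tf ha _).2.2.2.2.1)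
    (fun x => (ee h s.tf ha _).2.2.2.2.2.1)
    (fun x => (ee h s.tf ha _).2.2.2.2.2.2.1)
    (fun x => (ee h s.tf ha _).2.2.2.2.2.2.2.1)
    (fun x => (ee h s.tf ha _).2.2.2.2.2.2.2.2.2.1)
    (fun x => (ee h s.tf ha _).2.2.2.2.2.2.2.2.2.2.1)
    (fun x => (ee h s.tf ha _).2.2.2.2.2.2.2.2.2.2.2.1)
    (fun x => (ee h s.tf ha _).2.2.2.2.2.2.2.2.2.2.2.2.2.1)
    (fun x => (ee h s.tf ha _).2.2.2.2.2.2.2.2.2.2.2.2.2.2.1)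
    (fun x => (ee h s.tf ha _).2.2.2.2.2.2.2.2.2.2.2.2.2.2.2.1)
    (fun x => (ee h s.tf ha _).2.2.2.2.2.2.2.2.2.2.2.2.2.2.2.2.1)
    (fun x => (ee h s.tf ha _).2.2.2.2.2.2.2.2.2.2.2.2.2.2.2.2.2.1)
    (fun x => (ee h s.tf ha _).2.2.2.2.2.2.2.2.2.2.2.2.2.2.2.2.2.2.1)
    (fun x => (ee h s.tf ha _).2.2.2.2.2.2.2.2.2.2.2.2.2.2.2.2.2.2.2.2.1)
    (fun x => (ee h s.tf ha _).2.2.2.2.2.2.2.2.2.2.2.2.2.2.2.2.2.2.2.2.2.1)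
    (fun x => (ee h s.tf ha _).2.2.2.2.2.2.2.2.2.2.2.2.2.2.2.2.2.2.2.2.2.2.2.2.1)
    (fun x => (ee h s.tf ha _).2.2.2.2.2.2.2.2.2.2.2.2.2.2.2.2.2.2.2.2.2.2.2.2.2.2.2.1)
    (fun x => (ee h s.tf ha _).2.2.2.2.2.2.2.2.2.2.2.2.2.2.2.2.2.2.2.2.2.2.2.2.2.2.2.2.1)
    (fun x => (ee h s.tf ha _).2.2.2.2.2.2.2.2.2.2.2.2.2.2.2.2.2.2.2.2.2.2.2.2.2.2.2.2.2.2.2.2.1)
    (fun x => (ee h s.tf hb _).2.2.2.2.2.2.2.2.2.2.2.2.2.2.2.2.2.2.2.2.2.2.2.2.2.2.2.2.2.2.2.2.2.1)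
    (fun x => (ee h s.tf hb _).2.2.2.2.2.2.2.2.2.2.2.2.2.2.2.2.2.2.2.2.2.2.2.2.2.2.2.2.2.2.2.2.2.2)
    (fun x => by simpa only [inv_inv] using (ee h s.tf (h.inv hb) x).2.2.2.2.2.2.2.2.2.2.2.2.2.2.2.2.2.2.2.2.2.2.2.2.2.2.2.2.2.2.2.2.2.1)
    (fun x => by simpa only [inv_inv] using (ee h s.tf (h.inv hb) x).2.2.2.2.2.2.2.2.2.2.2.2.2.2.2.2.2.2.2.2.2.2.2.2.2.2.2.2.2.2.2.2.2.2)
    (fun x => (ee h s.tf hb _).2.2.1)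
    (fun x => (ee h s.tf hb _).2.2.2.1)
    (fun x => (ee h s.tf hb _).2.2.2.2.1)
    (fun x => (ee h s.tf hb _).2.2.2.2.2.1)
    (fun x => (ee h s.tf hb _).2.2.2.2.2.2.1)
    (fun x => (ee h s.tf hb _).2.2.2.2.2.2.2.1)
    (fun x => (ee h s.tf hb _).2.2.2.2.2.2.2.2.1)
    (fun x => (ee h s.tf hb _).2.2.2.2.2.2.2.2.2.1)
    (fun x => (ee h s.tf hb _).2.2.2.2.2.2.2.2.2.2.1)
    (fun x => (ee h s.tf hb _).2.2.2.2.2.2.2.2.2.2.2.1)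
    (fun x => (ee h s.tf hb _).2.2.2.2.2.2.2.2.2.2.2.2.1)
    (fun x => (ee h s.tf hb _).2.2.2.2.2.2.2.2.2.2.2.2.2.1)
    (fun x => (ee h s.tf hb _).2.2.2.2.2.2.2.2.2.2.2.2.2.2.1)
    (fun x => (ee h s.tf hb _).2.2.2.2.2.2.2.2.2.2.2.2.2.2.2.1)
    (fun x => (ee h s.tf hb _).2.2.2.2.2.2.2.2.2.2.2.2.2.2.2.2.1)
    (fun x => (ee h s.tf hb _).2.2.2.2.2.2.2.2.2.2.2.2.2.2.2.2.2.1)
    (fun x => (ee h s.tf hb _).2.2.2.2.2.2.2.2.2.2.2.2.2.2.2.2.2.2.1)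
    (fun x => (ee h s.tf hb _).2.2.2.2.2.2.2.2.2.2.2.2.2.2.2.2.2.2.2.2.1)
    (fun x => (ee h s.tf hb _).2.2.2.2.2.2.2.2.2.2.2.2.2.2.2.2.2.2.2.2.2.2.2.2.2.2.2.1)
    (fun x => (ee h s.tf hb _).2.2.2.2.2.2.2.2.2.2.2.2.2.2.2.2.2.2.2.2.2.2.2.2.2.2.2.2.1)
    (fun x => (ee h s.tf hb _).2.2.2.2.2.2.2.2.2.2.2.2.2.2.2.2.2.2.2.2.2.2.2.2.2.2.2.2.2.1)
    (fun x => (ee h s.tf hb _).2.2.2.2.2.2.2.2.2.2.2.2.2.2.2.2.2.2.2.2.2.2.2.2.2.2.2.2.2.2.2.1)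
    (fun x => (ee h s.tf hb _).2.2.2.2.2.2.2.2.2.2.2.2.2.2.2.2.2.2.2.2.2.2.2.2.2.2.2.2.2.2.2.2.1)
    (fun x => (ee h s.tf hc _).2.2.2.2.2.2.2.2.2.2.2.2.2.2.2.2.2.2.2.2.2.2.2.2.2.2.2.2.2.2.2.2.2.1)
    (fun x => (ee h s.tf hc _).2.2.2.2.2.2.2.2.2.2.2.2.2.2.2.2.2.2.2.2.2.2.2.2.2.2.2.2.2.2.2.2.2.2)
    (fun x => by simpa only [inv_inv] using (ee h s.tf (h.inv hc) x).2.2.2.2.2.2.2.2.2.2.2.2.2.2.2.2.2.2.2.2.2.2.2.2.2.2.2.2.2.2.2.2.2.1)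
    (fun x => by simpa only [inv_inv] using (ee h s.tf (h.inv hc) x).2.2.2.2.2.2.2.2.2.2.2.2.2.2.2.2.2.2.2.2.2.2.2.2.2.2.2.2.2.2.2.2.2.2)
    (fun x => (ee h s.tf hc _).1)
    (fun x => (ee h s.tf hc _).2.1)
    (fun x => (ee h s.tf hc _).2.2.1)
    (fun x => (ee h s.tf hc _).2.2.2.1)
    (fun x => (ee h s.tf hc _).2.2.2.2.1)
    (fun x => (ee h s.tf hc _).2.2.2.2.2.1)
    (fun x => (ee h s.tf hc _).2.2.2.2.2.2.1)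
    (fun x => (ee h s.tf hc _).2.2.2.2.2.2.2.1)
    (fun x => (ee h s.tf hc _).2.2.2.2.2.2.2.2.1)
    (fun x => (ee h s.tf hc _).2.2.2.2.2.2.2.2.2.1)
    (fun x => (ee h s.tf hc _).2.2.2.2.2.2.2.2.2.2.1)
    (fun x => (ee h s.tf hc _).2.2.2.2.2.2.2.2.2.2.2.1)
    (fun x => (ee h s.tf hc _).2.2.2.2.2.2.2.2.2.2.2.2.1)
    (fun x => (ee h s.tf hc _).2.2.2.2.2.2.2.2.2.2.2.2.2.1)
    (fun x => (ee h s.tf hc _).2.2.2.2.2.2.2.2.2.2.2.2.2.2.1)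
    (fun x => (ee h s.tf hc _).2.2.2.2.2.2.2.2.2.2.2.2.2.2.2.1)
    (fun x => (ee h s.tf hc _).2.2.2.2.2.2.2.2.2.2.2.2.2.2.2.2.1)
    (fun x => (ee h s.tf hc _).2.2.2.2.2.2.2.2.2.2.2.2.2.2.2.2.2.1)
    (fun x => (ee h s.tf hc _).2.2.2.2.2.2.2.2.2.2.2.2.2.2.2.2.2.2.1)
    (fun x => (ee h s.tf hc _).2.2.2.2.2.2.2.2.2.2.2.2.2.2.2.2.2.2.2.1)
    (fun x => (ee h s.tf hc _).2.2.2.2.2.2.2.2.2.2.2.2.2.2.2.2.2.2.2.2.2.1)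
    (fun x => (ee h s.tf hc _).2.2.2.2.2.2.2.2.2.2.2.2.2.2.2.2.2.2.2.2.2.2.1)
    (fun x => (ee h s.tf hc _).2.2.2.2.2.2.2.2.2.2.2.2.2.2.2.2.2.2.2.2.2.2.2.1)
    (fun x => (ee h s.tf hc _).2.2.2.2.2.2.2.2.2.2.2.2.2.2.2.2.2.2.2.2.2.2.2.2.2.2.1)
    (fun x => (ee h s.tf hc _).2.2.2.2.2.2.2.2.2.2.2.2.2.2.2.2.2.2.2.2.2.2.2.2.2.2.2.1)
    (fun x => (ee h s.tf hc _).2.2.2.2.2.2.2.2.2.2.2.2.2.2.2.2.2.2.2.2.2.2.2.2.2.2.2.2.1)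
    (fun x => (ee h s.tf hc _).2.2.2.2.2.2.2.2.2.2.2.2.2.2.2.2.2.2.2.2.2.2.2.2.2.2.2.2.2.1)
    (fun x => (ee h s.tf hc _).2.2.2.2.2.2.2.2.2.2.2.2.2.2.2.2.2.2.2.2.2.2.2.2.2.2.2.2.2.2.1)
    (fun x => (ee h s.tf hc _).2.2.2.2.2.2.2.2.2.2.2.2.2.2.2.2.2.2.2.2.2.2.2.2.2.2.2.2.2.2.2.1)
    (fun x => (ee h s.tf hc _).2.2.2.2.2.2.2.2.2.2.2.2.2.2.2.2.2.2.2.2.2.2.2.2.2.2.2.2.2.2.2.2.1)
    (fun x y => r4 h (h.m ha x) y)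
    (fun x y => r4 h (h.m (h.inv ha) x) y)
    (fun x y => r4 h (h.m hb x) y)
    (fun x y => r4 h (h.m (h.inv hb) x) y)
    (fun x y => r4 h (h.m hc x) y)
    (fun x y => r4 h (h.m (h.inv hc) x) y)

theorem g5b (s : St X a b c) (hab : cm a b = 1) (hf : cm (cm c a) a = 1) (hp : cm (cm c b) b = 1) :
    (cm (cm (cm (cm c b) a) c) c) = (1 : G) :=
  have h := s.gd
  have ha := s.ha
  have hb := s.hb
  have hc := s.hc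
  KB.G5b.main a b c
    (fun x p0 => (la h ha _ p0).1)
    (fun x p0 => (la h ha _ p0).2)
    (fun x _ => r4 h ha _)
    (fun x y _ _ _ => r4 h ha _)
    (fun x p0 => (la h hb _ p0).1)
    (fun x p0 => (la h hb _ p0).2)
    (fun x _ => r4 h hb _)
    (fun x y p0 p1 p2 => (w3 h hb _ _ p0 p1 p2).1)
    (fun x p0 => (la h hc _ p0).1)
    (fun x p0 => (la h hc _ p0).2)
    (fun x _ => r4 h hc _)
    (fun x y p0 p1 p2 => t3 h hc _ _ p0 p1 p2)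
    (fun x y _ _ _ => r4 h hc _)
    (fun x p0 p1 => (a2s h ha _ p0 p1).1)
    (fun x p0 p1 => (a2s h ha _ p0 p1).2.1)
    (fun x p0 p1 => (a2s h ha _ p0 p1).2.2.1)
    (fun x p0 p1 => (a2s h ha _ p0 p1).2.2.2.1)
    (fun x p0 p1 => (a2s h ha _ p0 p1).2.2.2.2.1)
    (fun x p0 p1 => (a2s h ha _ p0 p1).2.2.2.2.2.1)
    (fun x p0 p1 => (a2s h ha _ p0 p1).2.2.2.2.2.2.1)
    (fun x p0 p1 => (a2s h ha _ p0 p1).2.2.2.2.2.2.2.1)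
    (fun x p0 p1 => (a2s h ha _ p0 p1).2.2.2.2.2.2.2.2)
    (fun x p0 p1 => (a2s h hb _ p0 p1).1)
    (fun x p0 p1 => (a2s h hb _ p0 p1).2.1)
    (fun x p0 p1 => (a2s h hb _ p0 p1).2.2.1)
    (fun x p0 p1 => (a2s h hb _ p0 p1).2.2.2.1)
    (fun x p0 p1 => (a2s h hb _ p0 p1).2.2.2.2.1)
    (fun x p0 p1 => (a2s h hb _ p0 p1).2.2.2.2.2.1)
    (fun x p0 p1 => (a2s h hb _ p0 p1).2.2.2.2.2.2.1)
    (fun x p0 p1 => (a2s h hb _ p0 p1).2.2.2.2.2.2.2.1)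
    (fun x p0 p1 => (a2s h hc _ p0 p1).1)
    (fun x p0 p1 => (a2s h hc _ p0 p1).2.1)
    (fun x p0 p1 => (a2s h hc _ p0 p1).2.2.1)
    (fun x p0 p1 => (a2s h hc _ p0 p1).2.2.2.1)
    (fun x p0 p1 => (a2s h hc _ p0 p1).2.2.2.2.1)
    (fun x p0 p1 => (a2s h hc _ p0 p1).2.2.2.2.2.1)
    (fun x p0 p1 => (a2s h hc _ p0 p1).2.2.2.2.2.2.1)
    (fun x p0 p1 => (a2s h hc _ p0 p1).2.2.2.2.2.2.2.1)
    (fun x p0 p1 => (a2s h hc _ p0 p1).2.2.2.2.2.2.2.2)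
    (fun p0 p1 p2 => s.cen _ p0 p1 p2)
    (fun p0 p1 p2 => s.cen _ p0 p1 p2)
    (fun p0 => rt2 s hb _ p0)
    (hab)
    (hf)
    (hp)
    (fun x => (pr h (h.m ha x) ha).1)
    (fun x => (pr h (h.m ha x) ha).2.1)
    (fun x => (pr h (h.m ha x) ha).2.2.2)
    (fun x => (pr h (h.m ha x) hb).1)
    (fun x => (pr h (h.m ha x) hb).2.1)
    (fun x => (pr h (h.m ha x) hb).2.2.1)
    (fun x => (pr h (h.m ha x) hb).2.2.2)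
    (fun x => (pr h (h.m ha x) hc).1)
    (fun x => (pr h (h.m ha x) hc).2.1)
    (fun x => (pr h (h.m ha x) hc).2.2.1)
    (fun x => (pr h (h.m ha x) hc).2.2.2)
    (fun x => (pr h (h.m hb x) ha).1)
    (fun x => (pr h (h.m hb x) ha).2.1)
    (fun x => (pr h (h.m hb x) ha).2.2.1)
    (fun x => (pr h (h.m hb x) ha).2.2.2)
    (fun x => (pr h (h.m hb x) hb).1)
    (fun x => (pr h (h.m hb x) hb).2.1)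
    (fun x => (pr h (h.m hb x) hb).2.2.2)
    (fun x => (pr h (h.m hb x) hc).1)
    (fun x => (pr h (h.m hb x) hc).2.1)
    (fun x => (pr h (h.m hb x) hc).2.2.1)
    (fun x => (pr h (h.m hb x) hc).2.2.2)
    (fun x => (pr h (h.m hc x) ha).1)
    (fun x => (pr h (h.m hc x) ha).2.1)
    (fun x => (pr h (h.m hc x) ha).2.2.1)
    (fun x => (pr h (h.m hc x) ha).2.2.2)
    (fun x => (pr h (h.m hc x) hb).1)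
    (fun x => (pr h (h.m hc x) hb).2.1)
    (fun x => (pr h (h.m hc x) hb).2.2.1)
    (fun x => (pr h (h.m hc x) hb).2.2.2)
    (fun x => (pr h (h.m hc x) hc).1)
    (fun x => (pr h (h.m hc x) hc).2.1)
    (fun x => (pr h (h.m hc x) hc).2.2.1)
    (fun x => (pr h (h.m hc x) hc).2.2.2)
    (fun x => (ee h s.tf ha _).2.2.2.2.2.2.2.2.2.2.2.2.2.2.2.2.2.2.2.2.2.2.2.2.2.2.2.2.2.2.2.2.2.1)
    (fun x => (ee h s.tf ha _).2.2.2.2.2.2.2.2.2.2.2.2.2.2.2.2.2.2.2.2.2.2.2.2.2.2.2.2.2.2.2.2.2.2)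
    (fun x => by simpa only [inv_inv] using (ee h s.tf (h.inv ha) x).2.2.2.2.2.2.2.2.2.2.2.2.2.2.2.2.2.2.2.2.2.2.2.2.2.2.2.2.2.2.2.2.2.1)
    (fun x => by simpa only [inv_inv] using (ee h s.tf (h.inv ha) x).2.2.2.2.2.2.2.2.2.2.2.2.2.2.2.2.2.2.2.2.2.2.2.2.2.2.2.2.2.2.2.2.2.2)
    (fun x => (ee h s.tf ha _).2.2.2.2.2.2.2.2.2.2.2.2.2.2.2.2.2.2.1)
    (fun x => (ee h s.tf ha _).2.2.2.2.2.2.2.2.2.2.2.2.2.2.2.2.2.2.2.1)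
    (fun x => (ee h s.tf ha _).2.2.2.2.2.2.2.2.2.2.2.2.2.2.2.2.2.2.2.2.2.1)
    (fun x => (ee h s.tf ha _).2.2.2.2.2.2.2.2.2.2.2.2.2.2.2.2.2.2.2.2.2.2.1)
    (fun x => (ee h s.tf ha _).2.2.2.2.2.2.2.2.2.2.2.2.2.2.2.2.2.2.2.2.2.2.2.1)
    (fun x => (ee h s.tf ha _).2.2.2.2.2.2.2.2.2.2.2.2.2.2.2.2.2.2.2.2.2.2.2.2.1)
    (fun x => (ee h s.tf ha _).2.2.2.2.2.2.2.2.2.2.2.2.2.2.2.2.2.2.2.2.2.2.2.2.2.1)
    (fun x => (ee h s.tf ha _).2.2.2.2.2.2.2.2.2.2.2.2.2.2.2.2.2.2.2.2.2.2.2.2.2.2.1)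
    (fun x => (ee h s.tf ha _).2.2.2.2.2.2.2.2.2.2.2.2.2.2.2.2.2.2.2.2.2.2.2.2.2.2.2.2.2.2.1)
    (fun x => (ee h s.tf ha _).2.2.2.2.2.2.2.2.2.2.2.2.2.2.2.2.2.2.2.2.2.2.2.2.2.2.2.2.2.2.2.1)
    (fun x => (ee h s.tf ha _).2.2.2.2.2.2.2.2.2.2.2.2.2.2.2.2.2.2.2.2.2.2.2.2.2.2.2.2.2.2.2.2.1)
    (fun x => (ee h s.tf hb _).2.2.2.2.2.2.2.2.2.2.2.2.2.2.2.2.2.2.2.2.2.2.2.2.2.2.2.2.2.2.2.2.2.1)
    (fun x => (ee h s.tf hb _).2.2.2.2.2.2.2.2.2.2.2.2.2.2.2.2.2.2.2.2.2.2.2.2.2.2.2.2.2.2.2.2.2.2)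
    (fun x => by simpa only [inv_inv] using (ee h s.tf (h.inv hb) x).2.2.2.2.2.2.2.2.2.2.2.2.2.2.2.2.2.2.2.2.2.2.2.2.2.2.2.2.2.2.2.2.2.1)
    (fun x => by simpa only [inv_inv] using (ee h s.tf (h.inv hb) x).2.2.2.2.2.2.2.2.2.2.2.2.2.2.2.2.2.2.2.2.2.2.2.2.2.2.2.2.2.2.2.2.2.2)
    (fun x => (ee h s.tf hb _).1)
    (fun x => (ee h s.tf hb _).2.1)
    (fun x => (ee h s.tf hb _).2.2.2.1)
    (fun x => (ee h s.tf hb _).2.2.2.2.1)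
    (fun x => (ee h s.tf hb _).2.2.2.2.2.1)
    (fun x => (ee h s.tf hb _).2.2.2.2.2.2.1)
    (fun x => (ee h s.tf hb _).2.2.2.2.2.2.2.1)
    (fun x => (ee h s.tf hb _).2.2.2.2.2.2.2.2.1)
    (fun x => (ee h s.tf hb _).2.2.2.2.2.2.2.2.2.1)
    (fun x => (ee h s.tf hb _).2.2.2.2.2.2.2.2.2.2.1)
    (fun x => (ee h s.tf hb _).2.2.2.2.2.2.2.2.2.2.2.1)
    (fun x => (ee h s.tf hb _).2.2.2.2.2.2.2.2.2.2.2.2.1)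
    (fun x => (ee h s.tf hb _).2.2.2.2.2.2.2.2.2.2.2.2.2.1)
    (fun x => (ee h s.tf hb _).2.2.2.2.2.2.2.2.2.2.2.2.2.2.1)
    (fun x => (ee h s.tf hb _).2.2.2.2.2.2.2.2.2.2.2.2.2.2.2.2.2.2.1)
    (fun x => (ee h s.tf hb _).2.2.2.2.2.2.2.2.2.2.2.2.2.2.2.2.2.2.2.1)
    (fun x => (ee h s.tf hb _).2.2.2.2.2.2.2.2.2.2.2.2.2.2.2.2.2.2.2.2.2.1)
    (fun x => (ee h s.tf hb _).2.2.2.2.2.2.2.2.2.2.2.2.2.2.2.2.2.2.2.2.2.2.2.2.1)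
    (fun x => (ee h s.tf hb _).2.2.2.2.2.2.2.2.2.2.2.2.2.2.2.2.2.2.2.2.2.2.2.2.2.2.1)
    (fun x => (ee h s.tf hb _).2.2.2.2.2.2.2.2.2.2.2.2.2.2.2.2.2.2.2.2.2.2.2.2.2.2.2.2.2.2.1)
    (fun x => (ee h s.tf hb _).2.2.2.2.2.2.2.2.2.2.2.2.2.2.2.2.2.2.2.2.2.2.2.2.2.2.2.2.2.2.2.1)
    (fun x => (ee h s.tf hb _).2.2.2.2.2.2.2.2.2.2.2.2.2.2.2.2.2.2.2.2.2.2.2.2.2.2.2.2.2.2.2.2.1)
    (fun x => (ee h s.tf hc _).2.2.2.2.2.2.2.2.2.2.2.2.2.2.2.2.2.2.2.2.2.2.2.2.2.2.2.2.2.2.2.2.2.1)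
    (fun x => (ee h s.tf hc _).2.2.2.2.2.2.2.2.2.2.2.2.2.2.2.2.2.2.2.2.2.2.2.2.2.2.2.2.2.2.2.2.2.2)
    (fun x => by simpa only [inv_inv] using (ee h s.tf (h.inv hc) x).2.2.2.2.2.2.2.2.2.2.2.2.2.2.2.2.2.2.2.2.2.2.2.2.2.2.2.2.2.2.2.2.2.1)
    (fun x => by simpa only [inv_inv] using (ee h s.tf (h.inv hc) x).2.2.2.2.2.2.2.2.2.2.2.2.2.2.2.2.2.2.2.2.2.2.2.2.2.2.2.2.2.2.2.2.2.2)
    (fun x => (ee h s.tf hc _).1)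
    (fun x => (ee h s.tf hc _).2.2.1)
    (fun x => (ee h s.tf hc _).2.2.2.1)
    (fun x => (ee h s.tf hc _).2.2.2.2.1)
    (fun x => (ee h s.tf hc _).2.2.2.2.2.1)
    (fun x => (ee h s.tf hc _).2.2.2.2.2.2.1)
    (fun x => (ee h s.tf hc _).2.2.2.2.2.2.2.1)
    (fun x => (ee h s.tf hc _).2.2.2.2.2.2.2.2.1)
    (fun x => (ee h s.tf hc _).2.2.2.2.2.2.2.2.2.1)
    (fun x => (ee h s.tf hc _).2.2.2.2.2.2.2.2.2.2.1)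
    (fun x => (ee h s.tf hc _).2.2.2.2.2.2.2.2.2.2.2.1)
    (fun x => (ee h s.tf hc _).2.2.2.2.2.2.2.2.2.2.2.2.1)
    (fun x => (ee h s.tf hc _).2.2.2.2.2.2.2.2.2.2.2.2.2.1)
    (fun x => (ee h s.tf hc _).2.2.2.2.2.2.2.2.2.2.2.2.2.2.1)
    (fun x => (ee h s.tf hc _).2.2.2.2.2.2.2.2.2.2.2.2.2.2.2.1)
    (fun x => (ee h s.tf hc _).2.2.2.2.2.2.2.2.2.2.2.2.2.2.2.2.1)
    (fun x => (ee h s.tf hc _).2.2.2.2.2.2.2.2.2.2.2.2.2.2.2.2.2.1)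
    (fun x => (ee h s.tf hc _).2.2.2.2.2.2.2.2.2.2.2.2.2.2.2.2.2.2.1)
    (fun x => (ee h s.tf hc _).2.2.2.2.2.2.2.2.2.2.2.2.2.2.2.2.2.2.2.1)
    (fun x => (ee h s.tf hc _).2.2.2.2.2.2.2.2.2.2.2.2.2.2.2.2.2.2.2.2.1)
    (fun x => (ee h s.tf hc _).2.2.2.2.2.2.2.2.2.2.2.2.2.2.2.2.2.2.2.2.2.1)
    (fun x => (ee h s.tf hc _).2.2.2.2.2.2.2.2.2.2.2.2.2.2.2.2.2.2.2.2.2.2.1)
    (fun x => (ee h s.tf hc _).2.2.2.2.2.2.2.2.2.2.2.2.2.2.2.2.2.2.2.2.2.2.2.1)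
    (fun x => (ee h s.tf hc _).2.2.2.2.2.2.2.2.2.2.2.2.2.2.2.2.2.2.2.2.2.2.2.2.1)
    (fun x => (ee h s.tf hc _).2.2.2.2.2.2.2.2.2.2.2.2.2.2.2.2.2.2.2.2.2.2.2.2.2.1)
    (fun x => (ee h s.tf hc _).2.2.2.2.2.2.2.2.2.2.2.2.2.2.2.2.2.2.2.2.2.2.2.2.2.2.1)
    (fun x => (ee h s.tf hc _).2.2.2.2.2.2.2.2.2.2.2.2.2.2.2.2.2.2.2.2.2.2.2.2.2.2.2.1)
    (fun x => (ee h s.tf hc _).2.2.2.2.2.2.2.2.2.2.2.2.2.2.2.2.2.2.2.2.2.2.2.2.2.2.2.2.1)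
    (fun x => (ee h s.tf hc _).2.2.2.2.2.2.2.2.2.2.2.2.2.2.2.2.2.2.2.2.2.2.2.2.2.2.2.2.2.1)
    (fun x => (ee h s.tf hc _).2.2.2.2.2.2.2.2.2.2.2.2.2.2.2.2.2.2.2.2.2.2.2.2.2.2.2.2.2.2.1)
    (fun x => (ee h s.tf hc _).2.2.2.2.2.2.2.2.2.2.2.2.2.2.2.2.2.2.2.2.2.2.2.2.2.2.2.2.2.2.2.1)
    (fun x => (ee h s.tf hc _).2.2.2.2.2.2.2.2.2.2.2.2.2.2.2.2.2.2.2.2.2.2.2.2.2.2.2.2.2.2.2.2.1)
    (fun x y => r4 h (h.m ha x) y)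
    (fun x y => r4 h (h.m (h.inv ha) x) y)
    (fun x y => r4 h (h.m hb x) y)
    (fun x y => r4 h (h.m (h.inv hb) x) y)
    (fun x y => r4 h (h.m (h.inv hc) x) y)

theorem g5c (s : St X a b c) (hab : cm a b = 1) (hf : cm (cm c a) a = 1) (hp : cm (cm c b) b = 1) (hi : cm (cm (cm (cm c b) a) c) c = 1) :
    (cm c a) = (1 : G) ∧
    (cm c b) = (1 : G) :=
  have h := s.gd
  have ha := s.ha
  have hb := s.hb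
  have hc := s.hc
  KB.G5c.main a b c
    (fun x p0 => (la h ha _ p0).1)
    (fun x p0 => (la h ha _ p0).2)
    (fun x _ => r4 h ha _)
    (fun x p0 => (la h hb _ p0).1)
    (fun x p0 => (la h hb _ p0).2)
    (fun x _ => r4 h hb _)
    (fun x p0 => (la h hc _ p0).1)
    (fun x p0 => (la h hc _ p0).2)
    (fun x _ => r4 h hc _)
    (fun x y p0 p1 p2 => t3 h hc _ _ p0 p1 p2)
    (fun x y _ _ _ => r4 h hc _)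
    (fun x p0 p1 => (a2s h ha _ p0 p1).1)
    (fun x p0 p1 => (a2s h ha _ p0 p1).2.2.1)
    (fun x p0 p1 => (a2s h ha _ p0 p1).2.2.2.1)
    (fun x p0 p1 => (a2s h ha _ p0 p1).2.2.2.2.1)
    (fun x p0 p1 => (a2s h ha _ p0 p1).2.2.2.2.2.1)
    (fun x p0 p1 => (a2s h ha _ p0 p1).2.2.2.2.2.2.1)
    (fun x p0 p1 => (a2s h ha _ p0 p1).2.2.2.2.2.2.2.1)
    (fun x p0 p1 => (a2s h hb _ p0 p1).1)
    (fun x p0 p1 => (a2s h hb _ p0 p1).2.1)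
    (fun x p0 p1 => (a2s h hb _ p0 p1).2.2.1)
    (fun x p0 p1 => (a2s h hb _ p0 p1).2.2.2.1)
    (fun x p0 p1 => (a2s h hb _ p0 p1).2.2.2.2.1)
    (fun x p0 p1 => (a2s h hb _ p0 p1).2.2.2.2.2.1)
    (fun x p0 p1 => (a2s h hb _ p0 p1).2.2.2.2.2.2.1)
    (fun x p0 p1 => (a2s h hb _ p0 p1).2.2.2.2.2.2.2.1)
    (fun x p0 p1 => (a2s h hb _ p0 p1).2.2.2.2.2.2.2.2)
    (fun x p0 p1 => (a2s h hc _ p0 p1).1)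
    (fun x p0 p1 => (a2s h hc _ p0 p1).2.1)
    (fun x p0 p1 => (a2s h hc _ p0 p1).2.2.1)
    (fun x p0 p1 => (a2s h hc _ p0 p1).2.2.2.1)
    (fun x p0 p1 => (a2s h hc _ p0 p1).2.2.2.2.1)
    (fun x p0 p1 => (a2s h hc _ p0 p1).2.2.2.2.2.1)
    (fun x p0 p1 => (a2s h hc _ p0 p1).2.2.2.2.2.2.1)
    (fun x p0 p1 => (a2s h hc _ p0 p1).2.2.2.2.2.2.2.1)
    (fun x p0 p1 => (a2s h hc _ p0 p1).2.2.2.2.2.2.2.2)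
    (fun p0 p1 p2 => s.cen _ p0 p1 p2)
    (fun p0 p1 p2 => s.cen _ p0 p1 p2)
    (fun p0 p1 p2 => s.cen _ p0 p1 p2)
    (fun p0 p1 p2 => s.cen _ p0 p1 p2)
    (fun p0 p1 p2 => s.cen _ p0 p1 p2)
    (fun p0 p1 p2 => s.cen _ p0 p1 p2)
    (fun p0 p1 p2 => s.cen _ p0 p1 p2)
    (hab)
    (hf)
    (hp)
    (hi)
    (fun x => (pr h (h.m ha x) ha).1)
    (fun x => (pr h (h.m ha x) ha).2.2.2)
    (fun x => (pr h (h.m ha x) hb).1)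
    (fun x => (pr h (h.m ha x) hb).2.1)
    (fun x => (pr h (h.m ha x) hb).2.2.1)
    (fun x => (pr h (h.m ha x) hb).2.2.2)
    (fun x => (pr h (h.m ha x) hc).1)
    (fun x => (pr h (h.m ha x) hc).2.1)
    (fun x => (pr h (h.m ha x) hc).2.2.1)
    (fun x => (pr h (h.m ha x) hc).2.2.2)
    (fun x => (pr h (h.m hb x) ha).1)
    (fun x => (pr h (h.m hb x) ha).2.1)
    (fun x => (pr h (h.m hb x) ha).2.2.1)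
    (fun x => (pr h (h.m hb x) ha).2.2.2)
    (fun x => (pr h (h.m hb x) hb).1)
    (fun x => (pr h (h.m hb x) hb).2.2.2)
    (fun x => (pr h (h.m hb x) hc).1)
    (fun x => (pr h (h.m hb x) hc).2.1)
    (fun x => (pr h (h.m hb x) hc).2.2.1)
    (fun x => (pr h (h.m hb x) hc).2.2.2)
    (fun x => (pr h (h.m hc x) ha).1)
    (fun x => (pr h (h.m hc x) ha).2.1)
    (fun x => (pr h (h.m hc x) ha).2.2.1)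
    (fun x => (pr h (h.m hc x) ha).2.2.2)
    (fun x => (pr h (h.m hc x) hb).1)
    (fun x => (pr h (h.m hc x) hb).2.1)
    (fun x => (pr h (h.m hc x) hb).2.2.1)
    (fun x => (pr h (h.m hc x) hb).2.2.2)
    (fun x => (pr h (h.m hc x) hc).1)
    (fun x => (pr h (h.m hc x) hc).2.1)
    (fun x => (pr h (h.m hc x) hc).2.2.1)
    (fun x => (pr h (h.m hc x) hc).2.2.2)
    (fun x => (ee h s.tf ha _).2.2.2.2.2.2.2.2.2.2.2.2.2.2.2.2.2.2.2.2.2.2.2.2.2.2.2.2.2.2.2.2.2.1)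
    (fun x => (ee h s.tf ha _).2.2.2.2.2.2.2.2.2.2.2.2.2.2.2.2.2.2.2.2.2.2.2.2.2.2.2.2.2.2.2.2.2.2)
    (fun x => by simpa only [inv_inv] using (ee h s.tf (h.inv ha) x).2.2.2.2.2.2.2.2.2.2.2.2.2.2.2.2.2.2.2.2.2.2.2.2.2.2.2.2.2.2.2.2.2.1)
    (fun x => by simpa only [inv_inv] using (ee h s.tf (h.inv ha) x).2.2.2.2.2.2.2.2.2.2.2.2.2.2.2.2.2.2.2.2.2.2.2.2.2.2.2.2.2.2.2.2.2.2)
    (fun x => (ee h s.tf ha _).1)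
    (fun x => (ee h s.tf ha _).2.2.2.1)
    (fun x => (ee h s.tf ha _).2.2.2.2.1)
    (fun x => (ee h s.tf ha _).2.2.2.2.2.2.1)
    (fun x => (ee h s.tf ha _).2.2.2.2.2.2.2.2.2.1)
    (fun x => (ee h s.tf ha _).2.2.2.2.2.2.2.2.2.2.2.1)
    (fun x => (ee h s.tf ha _).2.2.2.2.2.2.2.2.2.2.2.2.2.2.1)
    (fun x => (ee h s.tf ha _).2.2.2.2.2.2.2.2.2.2.2.2.2.2.2.2.2.2.1)
    (fun x => (ee h s.tf ha _).2.2.2.2.2.2.2.2.2.2.2.2.2.2.2.2.2.2.2.1)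
    (fun x => (ee h s.tf ha _).2.2.2.2.2.2.2.2.2.2.2.2.2.2.2.2.2.2.2.2.1)
    (fun x => (ee h s.tf ha _).2.2.2.2.2.2.2.2.2.2.2.2.2.2.2.2.2.2.2.2.2.1)
    (fun x => (ee h s.tf ha _).2.2.2.2.2.2.2.2.2.2.2.2.2.2.2.2.2.2.2.2.2.2.1)
    (fun x => (ee h s.tf ha _).2.2.2.2.2.2.2.2.2.2.2.2.2.2.2.2.2.2.2.2.2.2.2.1)
    (fun x => (ee h s.tf ha _).2.2.2.2.2.2.2.2.2.2.2.2.2.2.2.2.2.2.2.2.2.2.2.2.1)
    (fun x => (ee h s.tf ha _).2.2.2.2.2.2.2.2.2.2.2.2.2.2.2.2.2.2.2.2.2.2.2.2.2.1)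
    (fun x => (ee h s.tf ha _).2.2.2.2.2.2.2.2.2.2.2.2.2.2.2.2.2.2.2.2.2.2.2.2.2.2.1)
    (fun x => (ee h s.tf hb _).2.2.2.2.2.2.2.2.2.2.2.2.2.2.2.2.2.2.2.2.2.2.2.2.2.2.2.2.2.2.2.2.2.1)
    (fun x => (ee h s.tf hb _).2.2.2.2.2.2.2.2.2.2.2.2.2.2.2.2.2.2.2.2.2.2.2.2.2.2.2.2.2.2.2.2.2.2)
    (fun x => by simpa only [inv_inv] using (ee h s.tf (h.inv hb) x).2.2.2.2.2.2.2.2.2.2.2.2.2.2.2.2.2.2.2.2.2.2.2.2.2.2.2.2.2.2.2.2.2.1)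
    (fun x => by simpa only [inv_inv] using (ee h s.tf (h.inv hb) x).2.2.2.2.2.2.2.2.2.2.2.2.2.2.2.2.2.2.2.2.2.2.2.2.2.2.2.2.2.2.2.2.2.2)
    (fun x => (ee h s.tf hb _).2.2.1)
    (fun x => (ee h s.tf hb _).2.2.2.2.2.2.1)
    (fun x => (ee h s.tf hb _).2.2.2.2.2.2.2.2.1)
    (fun x => (ee h s.tf hb _).2.2.2.2.2.2.2.2.2.1)
    (fun x => (ee h s.tf hb _).2.2.2.2.2.2.2.2.2.2.1)
    (fun x => (ee h s.tf hb _).2.2.2.2.2.2.2.2.2.2.2.1)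
    (fun x => (ee h s.tf hb _).2.2.2.2.2.2.2.2.2.2.2.2.1)
    (fun x => (ee h s.tf hb _).2.2.2.2.2.2.2.2.2.2.2.2.2.2.2.2.2.2.1)
    (fun x => (ee h s.tf hb _).2.2.2.2.2.2.2.2.2.2.2.2.2.2.2.2.2.2.2.1)
    (fun x => (ee h s.tf hb _).2.2.2.2.2.2.2.2.2.2.2.2.2.2.2.2.2.2.2.2.1)
    (fun x => (ee h s.tf hb _).2.2.2.2.2.2.2.2.2.2.2.2.2.2.2.2.2.2.2.2.2.2.1)
    (fun x => (ee h s.tf hb _).2.2.2.2.2.2.2.2.2.2.2.2.2.2.2.2.2.2.2.2.2.2.2.1)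
    (fun x => (ee h s.tf hb _).2.2.2.2.2.2.2.2.2.2.2.2.2.2.2.2.2.2.2.2.2.2.2.2.1)
    (fun x => (ee h s.tf hb _).2.2.2.2.2.2.2.2.2.2.2.2.2.2.2.2.2.2.2.2.2.2.2.2.2.2.1)
    (fun x => (ee h s.tf hc _).2.2.2.2.2.2.2.2.2.2.2.2.2.2.2.2.2.2.2.2.2.2.2.2.2.2.2.2.2.2.2.2.2.1)
    (fun x => (ee h s.tf hc _).2.2.2.2.2.2.2.2.2.2.2.2.2.2.2.2.2.2.2.2.2.2.2.2.2.2.2.2.2.2.2.2.2.2)
    (fun x => by simpa only [inv_inv] using (ee h s.tf (h.inv hc) x).2.2.2.2.2.2.2.2.2.2.2.2.2.2.2.2.2.2.2.2.2.2.2.2.2.2.2.2.2.2.2.2.2.1)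
    (fun x => by simpa only [inv_inv] using (ee h s.tf (h.inv hc) x).2.2.2.2.2.2.2.2.2.2.2.2.2.2.2.2.2.2.2.2.2.2.2.2.2.2.2.2.2.2.2.2.2.2)
    (fun x => (ee h s.tf hc _).1)
    (fun x => (ee h s.tf hc _).2.1)
    (fun x => (ee h s.tf hc _).2.2.1)
    (fun x => (ee h s.tf hc _).2.2.2.1)
    (fun x => (ee h s.tf hc _).2.2.2.2.1)
    (fun x => (ee h s.tf hc _).2.2.2.2.2.1)
    (fun x => (ee h s.tf hc _).2.2.2.2.2.2.1)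
    (fun x => (ee h s.tf hc _).2.2.2.2.2.2.2.1)
    (fun x => (ee h s.tf hc _).2.2.2.2.2.2.2.2.1)
    (fun x => (ee h s.tf hc _).2.2.2.2.2.2.2.2.2.1)
    (fun x => (ee h s.tf hc _).2.2.2.2.2.2.2.2.2.2.1)
    (fun x => (ee h s.tf hc _).2.2.2.2.2.2.2.2.2.2.2.1)
    (fun x => (ee h s.tf hc _).2.2.2.2.2.2.2.2.2.2.2.2.1)
    (fun x => (ee h s.tf hc _).2.2.2.2.2.2.2.2.2.2.2.2.2.2.1)
    (fun x => (ee h s.tf hc _).2.2.2.2.2.2.2.2.2.2.2.2.2.2.2.1)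
    (fun x => (ee h s.tf hc _).2.2.2.2.2.2.2.2.2.2.2.2.2.2.2.2.1)
    (fun x => (ee h s.tf hc _).2.2.2.2.2.2.2.2.2.2.2.2.2.2.2.2.2.1)
    (fun x => (ee h s.tf hc _).2.2.2.2.2.2.2.2.2.2.2.2.2.2.2.2.2.2.1)
    (fun x => (ee h s.tf hc _).2.2.2.2.2.2.2.2.2.2.2.2.2.2.2.2.2.2.2.1)
    (fun x => (ee h s.tf hc _).2.2.2.2.2.2.2.2.2.2.2.2.2.2.2.2.2.2.2.2.1)
    (fun x => (ee h s.tf hc _).2.2.2.2.2.2.2.2.2.2.2.2.2.2.2.2.2.2.2.2.2.1)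
    (fun x => (ee h s.tf hc _).2.2.2.2.2.2.2.2.2.2.2.2.2.2.2.2.2.2.2.2.2.2.1)
    (fun x => (ee h s.tf hc _).2.2.2.2.2.2.2.2.2.2.2.2.2.2.2.2.2.2.2.2.2.2.2.1)
    (fun x => (ee h s.tf hc _).2.2.2.2.2.2.2.2.2.2.2.2.2.2.2.2.2.2.2.2.2.2.2.2.1)
    (fun x => (ee h s.tf hc _).2.2.2.2.2.2.2.2.2.2.2.2.2.2.2.2.2.2.2.2.2.2.2.2.2.1)
    (fun x => (ee h s.tf hc _).2.2.2.2.2.2.2.2.2.2.2.2.2.2.2.2.2.2.2.2.2.2.2.2.2.2.1)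
    (fun x y => r4 h (h.m ha x) y)
    (fun x y => r4 h (h.m (h.inv ha) x) y)
    (fun x y => r4 h (h.m hb x) y)
    (fun x y => r4 h (h.m (h.inv hb) x) y)
    (fun x y => r4 h (h.m hc x) y)
    (fun x y => r4 h (h.m (h.inv hc) x) y)

theorem t5p (s : St X a b c) (hab : cm a b = 1) : cm (cm c b) b = 1 :=
  s.cen _ (g5a s hab) (pr s.gd s.hc s.hb).1 (pr s.gd s.hc s.hb).2.1

theorem t5st (s : St X a b c) (hab : Commute a b) : a = 1 ∧ b = 1 ∧ c = 1 := by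
  have h1 := cm1.mpr hab
  have hp := t5p s h1
  have hf := t5p s.swap (cm1.mpr hab.symm)
  obtain ⟨g, k⟩ := g5c s h1 hf hp (g5b s h1 hf hp)
  exact ⟨s.cen a (cm_self a) h1 (cm1.mpr (cm1.mp g).symm),
    s.cen b (cm1.mpr hab.symm) (cm_self b) (cm1.mpr (cm1.mp k).symm), s.cen c g k (cm_self c)⟩

theorem t5nil (h : Gd X) (ha : a ∈ X) (hb : b ∈ X) (hc : c ∈ X) (hab : Commute a b) :
    Group.IsNilpotent (Subgroup.closure ({a, b, c} : Set G)) :=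
  nil_three h ha hb hc fun _ _ _ _ _ _ s k _ => t5st s (k hab)

theorem line (h : Gd X) (tf : ∀ y : G, y ^ 6 = 1 → y = 1) {s e c : G} (l : Ln X s e)
    (hc : c ∈ X) :
    cm (cm (cm c e) e) s = (1 : G) ∧
    cm (cm (cm c e) e) e = (1 : G) ∧
    cm (cm (cm c e) e) c = (1 : G) ∧
    cm (cm (cm c e) s) s = (1 : G) ∧
    cm (cm (cm c e) s) e = (1 : G) ∧
    cm (cm (cm c e) s) c = (1 : G) ∧
    cm (cm (cm (cm c e) c) s) s = (1 : G) ∧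
    cm (cm (cm (cm c e) c) s) e = (1 : G) ∧
    cm (cm (cm (cm c e) c) s) c = (1 : G) ∧
    cm (cm (cm c e) c) e = (1 : G) ∧
    cm (cm (cm c e) c) c = (1 : G) ∧
    cm (cm (cm c s) s) e = (1 : G) ∧
    ((cm (cm (cm c s) c) e) * (cm (cm (cm c e) c) s)) = (1 : G) ∧
    (cm (cm c s) e) = ((cm (cm c e) s) * (cm (cm (cm c s) c) e)) :=
  have m : s ∈ Subgroup.closure ({s, s * e, c} : Set G) := Subgroup.subset_closure (by simp)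
  have m' : s * e ∈ Subgroup.closure ({s, s * e, c} : Set G) := Subgroup.subset_closure (by simp)
  KB.GLn.main _ (t5nil h l.m0 l.m1 hc ((Commute.refl s).mul_right (cm1.mp l.c))) s e c m
    (by simpa using mul_mem (inv_mem m) m') (Subgroup.subset_closure (by simp))
    (fun x _ => tf x) l.c (fun x _ => r4 h l.m0 x)
    (fun x _ => (pr h (h.m l.m0 x) hc).1) (fun x _ => (pr h (h.m l.m0 x) hc).2.1) (fun x _ => (pr h (h.m l.m0 x) hc).2.2.2)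
    (fun x _ => (pr h (h.m l.m1 x) hc).1) (fun x _ => (pr h (h.m l.m1 x) hc).2.1) (fun x _ => (pr h (h.m l.m1 x) hc).2.2.2)
    (fun x _ => (pr h (h.m l.m2 x) hc).1) (fun x _ => (pr h (h.m l.m2 x) hc).2.1) (fun x _ => (pr h (h.m l.m2 x) hc).2.2.2)
    (fun x _ => (pr h (h.m l.m3 x) hc).1) (fun x _ => (pr h (h.m l.m3 x) hc).2.1) (fun x _ => (pr h (h.m l.m3 x) hc).2.2.2)

end Pool.Agent.P.MP_9682d1_al.T
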