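import Mathlib
import Pool.Agent.P.MP_9682d1_al.T.T5
import Pool.Agent.P.MP_9682d1_al.KB.G7a
import Pool.Agent.P.MP_9682d1_al.KB.G7b
import Pool.Agent.P.MP_9682d1_al.KB.GT7

set_option autoImplicit false
set_option linter.unusedVariables false

namespace Pool.Agent.P.MP_9682d1_al.T

open Pool.Agent.P.MP_9682d1_al.C hiding cm
open Pool.Agent.P.MP_9682d1_al.KB (cm cj)

universe u

variable {G : Type u} [Group G] {X : Set G} {a b c : G}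

theorem g7a (s : St X a b c) (hea : cm (cm b a) a = 1) (heb : cm (cm b a) b = 1) :
    cm (cm c (cm b a)) (cm b a) = (1 : G) ∧
    cm (cm c (cm b a)) a = (1 : G) ∧
    cm (cm c (cm b a)) b = (1 : G) :=
  have h := s.gd
  have ha := s.ha
  have hb := s.hb
  have hc := s.hc
  KB.G7a.main a b c
    (fun x p0 => (la h ha _ p0).1)
    (fun x p0 => (la h ha _ p0).2)
    (fun x y p0 p1 p2 => t3 h ha _ _ p0 p1 p2)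
    (fun x p0 => (la h hb _ p0).1)
    (fun x p0 => (la h hb _ p0).2)
    (fun x p0 => (la h hc _ p0).1)
    (fun x y p0 p1 p2 => t3 h hc _ _ p0 p1 p2)
    (fun x p0 p1 => (a2s h ha _ p0 p1).1)
    (fun x p0 p1 => (a2s h ha _ p0 p1).2.1)
    (fun x p0 p1 => (a2s h ha _ p0 p1).2.2.1)
    (fun x p0 p1 => (a2s h ha _ p0 p1).2.2.2.1)
    (fun x p0 p1 => (a2s h ha _ p0 p1).2.2.2.2.1)
    (fun x p0 p1 => (a2s h ha _ p0 p1).2.2.2.2.2.1)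
    (fun x p0 p1 => (a2s h ha _ p0 p1).2.2.2.2.2.2.2.2)
    (fun x p0 p1 => (a2s h hb _ p0 p1).1)
    (fun x p0 p1 => (a2s h hb _ p0 p1).2.2.2.1)
    (fun x p0 p1 => (a2s h hb _ p0 p1).2.2.2.2.1)
    (fun x p0 p1 => (a2s h hb _ p0 p1).2.2.2.2.2.1)
    (fun x p0 p1 => (a2s h hb _ p0 p1).2.2.2.2.2.2.1)
    (fun x p0 p1 => (a2s h hb _ p0 p1).2.2.2.2.2.2.2.1)
    (fun x p0 p1 => (a2s h hb _ p0 p1).2.2.2.2.2.2.2.2)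
    (fun x p0 p1 => (a2s h hc _ p0 p1).1)
    (fun x p0 p1 => (a2s h hc _ p0 p1).2.1)
    (fun x p0 p1 => (a2s h hc _ p0 p1).2.2.1)
    (fun x p0 p1 => (a2s h hc _ p0 p1).2.2.2.1)
    (fun x p0 p1 => (a2s h hc _ p0 p1).2.2.2.2.1)
    (fun x p0 p1 => (a2s h hc _ p0 p1).2.2.2.2.2.1)
    (fun x p0 p1 => (a2s h hc _ p0 p1).2.2.2.2.2.2.1)
    (fun x p0 p1 => (a2s h hc _ p0 p1).2.2.2.2.2.2.2.1)
    (fun x p0 p1 => (a2s h hc _ p0 p1).2.2.2.2.2.2.2.2)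
    (fun x y p0 p1 => (line h s.tf (ln1 h ha x p0 p1) (h.m ha y)).1)
    (fun x y p0 p1 => (line h s.tf (ln1 h ha x p0 p1) (h.m ha y)).2.1)
    (fun x y p0 p1 => (line h s.tf (ln1 h ha x p0 p1) (h.m ha y)).2.2.1)
    (fun x y p0 p1 => (line h s.tf (ln1 h ha x p0 p1) (h.m ha y)).2.2.2.1)
    (fun x y p0 p1 => (line h s.tf (ln1 h ha x p0 p1) (h.m ha y)).2.2.2.2.2.1)
    (fun x y p0 p1 => (line h s.tf (ln1 h ha x p0 p1) (h.m ha y)).2.2.2.2.2.2.1)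
    (fun x y p0 p1 => (line h s.tf (ln1 h ha x p0 p1) (h.m ha y)).2.2.2.2.2.2.2.2.1)
    (fun x y p0 p1 => (line h s.tf (ln1 h ha x p0 p1) (h.m ha y)).2.2.2.2.2.2.2.2.2.2.2.2.1)
    (fun x y p0 p1 => (line h s.tf (ln1 h ha x p0 p1) (h.m ha y)).2.2.2.2.2.2.2.2.2.2.2.2.2)
    (fun x y p0 p1 => (line h s.tf (ln1 h ha x p0 p1) (h.m hb y)).1)
    (fun x y p0 p1 => (line h s.tf (ln1 h ha x p0 p1) (h.m hb y)).2.1)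
    (fun x y p0 p1 => (line h s.tf (ln1 h ha x p0 p1) (h.m hb y)).2.2.1)
    (fun x y p0 p1 => (line h s.tf (ln1 h ha x p0 p1) (h.m hb y)).2.2.2.1)
    (fun x y p0 p1 => (line h s.tf (ln1 h ha x p0 p1) (h.m hb y)).2.2.2.2.1)
    (fun x y p0 p1 => (line h s.tf (ln1 h ha x p0 p1) (h.m hb y)).2.2.2.2.2.1)
    (fun x y p0 p1 => (line h s.tf (ln1 h ha x p0 p1) (h.m hb y)).2.2.2.2.2.2.1)
    (fun x y p0 p1 => (line h s.tf (ln1 h ha x p0 p1) (h.m hb y)).2.2.2.2.2.2.2.1)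
    (fun x y p0 p1 => (line h s.tf (ln1 h ha x p0 p1) (h.m hb y)).2.2.2.2.2.2.2.2.1)
    (fun x y p0 p1 => (line h s.tf (ln1 h ha x p0 p1) (h.m hb y)).2.2.2.2.2.2.2.2.2.1)
    (fun x y p0 p1 => (line h s.tf (ln1 h ha x p0 p1) (h.m hb y)).2.2.2.2.2.2.2.2.2.2.1)
    (fun x y p0 p1 => (line h s.tf (ln1 h ha x p0 p1) (h.m hb y)).2.2.2.2.2.2.2.2.2.2.2.1)
    (fun x y p0 p1 => (line h s.tf (ln1 h ha x p0 p1) (h.m hb y)).2.2.2.2.2.2.2.2.2.2.2.2.1)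
    (fun x y p0 p1 => (line h s.tf (ln1 h ha x p0 p1) (h.m hb y)).2.2.2.2.2.2.2.2.2.2.2.2.2)
    (fun x y p0 p1 => (line h s.tf (ln1 h ha x p0 p1) (h.m hc y)).1)
    (fun x y p0 p1 => (line h s.tf (ln1 h ha x p0 p1) (h.m hc y)).2.1)
    (fun x y p0 p1 => (line h s.tf (ln1 h ha x p0 p1) (h.m hc y)).2.2.1)
    (fun x y p0 p1 => (line h s.tf (ln1 h ha x p0 p1) (h.m hc y)).2.2.2.1)
    (fun x y p0 p1 => (line h s.tf (ln1 h ha x p0 p1) (h.m hc y)).2.2.2.2.1)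
    (fun x y p0 p1 => (line h s.tf (ln1 h ha x p0 p1) (h.m hc y)).2.2.2.2.2.1)
    (fun x y p0 p1 => (line h s.tf (ln1 h ha x p0 p1) (h.m hc y)).2.2.2.2.2.2.1)
    (fun x y p0 p1 => (line h s.tf (ln1 h ha x p0 p1) (h.m hc y)).2.2.2.2.2.2.2.1)
    (fun x y p0 p1 => (line h s.tf (ln1 h ha x p0 p1) (h.m hc y)).2.2.2.2.2.2.2.2.1)
    (fun x y p0 p1 => (line h s.tf (ln1 h ha x p0 p1) (h.m hc y)).2.2.2.2.2.2.2.2.2.1)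
    (fun x y p0 p1 => (line h s.tf (ln1 h ha x p0 p1) (h.m hc y)).2.2.2.2.2.2.2.2.2.2.1)
    (fun x y p0 p1 => (line h s.tf (ln1 h ha x p0 p1) (h.m hc y)).2.2.2.2.2.2.2.2.2.2.2.1)
    (fun x y p0 p1 => (line h s.tf (ln1 h ha x p0 p1) (h.m hc y)).2.2.2.2.2.2.2.2.2.2.2.2.1)
    (fun x y p0 p1 => (line h s.tf (ln1 h ha x p0 p1) (h.m hc y)).2.2.2.2.2.2.2.2.2.2.2.2.2)
    (fun x y p0 p1 => (line h s.tf (ln1 h hb x p0 p1) (h.m ha y)).1)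
    (fun x y p0 p1 => (line h s.tf (ln1 h hb x p0 p1) (h.m ha y)).2.1)
    (fun x y p0 p1 => (line h s.tf (ln1 h hb x p0 p1) (h.m ha y)).2.2.1)
    (fun x y p0 p1 => (line h s.tf (ln1 h hb x p0 p1) (h.m ha y)).2.2.2.1)
    (fun x y p0 p1 => (line h s.tf (ln1 h hb x p0 p1) (h.m ha y)).2.2.2.2.1)
    (fun x y p0 p1 => (line h s.tf (ln1 h hb x p0 p1) (h.m ha y)).2.2.2.2.2.1)
    (fun x y p0 p1 => (line h s.tf (ln1 h hb x p0 p1) (h.m ha y)).2.2.2.2.2.2.1)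
    (fun x y p0 p1 => (line h s.tf (ln1 h hb x p0 p1) (h.m ha y)).2.2.2.2.2.2.2.1)
    (fun x y p0 p1 => (line h s.tf (ln1 h hb x p0 p1) (h.m ha y)).2.2.2.2.2.2.2.2.1)
    (fun x y p0 p1 => (line h s.tf (ln1 h hb x p0 p1) (h.m ha y)).2.2.2.2.2.2.2.2.2.1)
    (fun x y p0 p1 => (line h s.tf (ln1 h hb x p0 p1) (h.m ha y)).2.2.2.2.2.2.2.2.2.2.1)
    (fun x y p0 p1 => (line h s.tf (ln1 h hb x p0 p1) (h.m ha y)).2.2.2.2.2.2.2.2.2.2.2.1)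
    (fun x y p0 p1 => (line h s.tf (ln1 h hb x p0 p1) (h.m ha y)).2.2.2.2.2.2.2.2.2.2.2.2.1)
    (fun x y p0 p1 => (line h s.tf (ln1 h hb x p0 p1) (h.m ha y)).2.2.2.2.2.2.2.2.2.2.2.2.2)
    (fun x y p0 p1 => (line h s.tf (ln1 h hb x p0 p1) (h.m hb y)).2.1)
    (fun x y p0 p1 => (line h s.tf (ln1 h hb x p0 p1) (h.m hb y)).2.2.1)
    (fun x y p0 p1 => (line h s.tf (ln1 h hb x p0 p1) (h.m hb y)).2.2.2.1)
    (fun x y p0 p1 => (line h s.tf (ln1 h hb x p0 p1) (h.m hb y)).2.2.2.2.1)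
    (fun x y p0 p1 => (line h s.tf (ln1 h hb x p0 p1) (h.m hb y)).2.2.2.2.2.1)
    (fun x y p0 p1 => (line h s.tf (ln1 h hb x p0 p1) (h.m hb y)).2.2.2.2.2.2.1)
    (fun x y p0 p1 => (line h s.tf (ln1 h hb x p0 p1) (h.m hb y)).2.2.2.2.2.2.2.2.1)
    (fun x y p0 p1 => (line h s.tf (ln1 h hb x p0 p1) (h.m hb y)).2.2.2.2.2.2.2.2.2.1)
    (fun x y p0 p1 => (line h s.tf (ln1 h hb x p0 p1) (h.m hb y)).2.2.2.2.2.2.2.2.2.2.1)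
    (fun x y p0 p1 => (line h s.tf (ln1 h hb x p0 p1) (h.m hb y)).2.2.2.2.2.2.2.2.2.2.2.2.1)
    (fun x y p0 p1 => (line h s.tf (ln1 h hb x p0 p1) (h.m hb y)).2.2.2.2.2.2.2.2.2.2.2.2.2)
    (fun x y p0 p1 => (line h s.tf (ln1 h hb x p0 p1) (h.m hc y)).1)
    (fun x y p0 p1 => (line h s.tf (ln1 h hb x p0 p1) (h.m hc y)).2.1)
    (fun x y p0 p1 => (line h s.tf (ln1 h hb x p0 p1) (h.m hc y)).2.2.1)
    (fun x y p0 p1 => (line h s.tf (ln1 h hb x p0 p1) (h.m hc y)).2.2.2.1)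
    (fun x y p0 p1 => (line h s.tf (ln1 h hb x p0 p1) (h.m hc y)).2.2.2.2.1)
    (fun x y p0 p1 => (line h s.tf (ln1 h hb x p0 p1) (h.m hc y)).2.2.2.2.2.1)
    (fun x y p0 p1 => (line h s.tf (ln1 h hb x p0 p1) (h.m hc y)).2.2.2.2.2.2.1)
    (fun x y p0 p1 => (line h s.tf (ln1 h hb x p0 p1) (h.m hc y)).2.2.2.2.2.2.2.1)
    (fun x y p0 p1 => (line h s.tf (ln1 h hb x p0 p1) (h.m hc y)).2.2.2.2.2.2.2.2.1)
    (fun x y p0 p1 => (line h s.tf (ln1 h hb x p0 p1) (h.m hc y)).2.2.2.2.2.2.2.2.2.1)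
    (fun x y p0 p1 => (line h s.tf (ln1 h hb x p0 p1) (h.m hc y)).2.2.2.2.2.2.2.2.2.2.1)
    (fun x y p0 p1 => (line h s.tf (ln1 h hb x p0 p1) (h.m hc y)).2.2.2.2.2.2.2.2.2.2.2.1)
    (fun x y p0 p1 => (line h s.tf (ln1 h hb x p0 p1) (h.m hc y)).2.2.2.2.2.2.2.2.2.2.2.2.1)
    (fun x y p0 p1 => (line h s.tf (ln1 h hb x p0 p1) (h.m hc y)).2.2.2.2.2.2.2.2.2.2.2.2.2)
    (fun x y p0 p1 => (line h s.tf (ln1 h hc x p0 p1) (h.m ha y)).1)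
    (fun x y p0 p1 => (line h s.tf (ln1 h hc x p0 p1) (h.m ha y)).2.1)
    (fun x y p0 p1 => (line h s.tf (ln1 h hc x p0 p1) (h.m ha y)).2.2.1)
    (fun x y p0 p1 => (line h s.tf (ln1 h hc x p0 p1) (h.m ha y)).2.2.2.1)
    (fun x y p0 p1 => (line h s.tf (ln1 h hc x p0 p1) (h.m ha y)).2.2.2.2.1)
    (fun x y p0 p1 => (line h s.tf (ln1 h hc x p0 p1) (h.m ha y)).2.2.2.2.2.1)
    (fun x y p0 p1 => (line h s.tf (ln1 h hc x p0 p1) (h.m ha y)).2.2.2.2.2.2.2.1)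
    (fun x y p0 p1 => (line h s.tf (ln1 h hc x p0 p1) (h.m ha y)).2.2.2.2.2.2.2.2.1)
    (fun x y p0 p1 => (line h s.tf (ln1 h hc x p0 p1) (h.m ha y)).2.2.2.2.2.2.2.2.2.1)
    (fun x y p0 p1 => (line h s.tf (ln1 h hc x p0 p1) (h.m ha y)).2.2.2.2.2.2.2.2.2.2.2.1)
    (fun x y p0 p1 => (line h s.tf (ln1 h hc x p0 p1) (h.m ha y)).2.2.2.2.2.2.2.2.2.2.2.2.1)
    (fun x y p0 p1 => (line h s.tf (ln1 h hc x p0 p1) (h.m ha y)).2.2.2.2.2.2.2.2.2.2.2.2.2)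
    (fun x y p0 p1 => (line h s.tf (ln1 h hc x p0 p1) (h.m hb y)).1)
    (fun x y p0 p1 => (line h s.tf (ln1 h hc x p0 p1) (h.m hb y)).2.1)
    (fun x y p0 p1 => (line h s.tf (ln1 h hc x p0 p1) (h.m hb y)).2.2.1)
    (fun x y p0 p1 => (line h s.tf (ln1 h hc x p0 p1) (h.m hb y)).2.2.2.1)
    (fun x y p0 p1 => (line h s.tf (ln1 h hc x p0 p1) (h.m hb y)).2.2.2.2.1)
    (fun x y p0 p1 => (line h s.tf (ln1 h hc x p0 p1) (h.m hb y)).2.2.2.2.2.1)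
    (fun x y p0 p1 => (line h s.tf (ln1 h hc x p0 p1) (h.m hb y)).2.2.2.2.2.2.1)
    (fun x y p0 p1 => (line h s.tf (ln1 h hc x p0 p1) (h.m hb y)).2.2.2.2.2.2.2.1)
    (fun x y p0 p1 => (line h s.tf (ln1 h hc x p0 p1) (h.m hb y)).2.2.2.2.2.2.2.2.1)
    (fun x y p0 p1 => (line h s.tf (ln1 h hc x p0 p1) (h.m hb y)).2.2.2.2.2.2.2.2.2.1)
    (fun x y p0 p1 => (line h s.tf (ln1 h hc x p0 p1) (h.m hb y)).2.2.2.2.2.2.2.2.2.2.1)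
    (fun x y p0 p1 => (line h s.tf (ln1 h hc x p0 p1) (h.m hb y)).2.2.2.2.2.2.2.2.2.2.2.1)
    (fun x y p0 p1 => (line h s.tf (ln1 h hc x p0 p1) (h.m hb y)).2.2.2.2.2.2.2.2.2.2.2.2.1)
    (fun x y p0 p1 => (line h s.tf (ln1 h hc x p0 p1) (h.m hb y)).2.2.2.2.2.2.2.2.2.2.2.2.2)
    (fun x y p0 p1 => (line h s.tf (ln1 h hc x p0 p1) (h.m hc y)).1)
    (fun x y p0 p1 => (line h s.tf (ln1 h hc x p0 p1) (h.m hc y)).2.1)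
    (fun x y p0 p1 => (line h s.tf (ln1 h hc x p0 p1) (h.m hc y)).2.2.1)
    (fun x y p0 p1 => (line h s.tf (ln1 h hc x p0 p1) (h.m hc y)).2.2.2.1)
    (fun x y p0 p1 => (line h s.tf (ln1 h hc x p0 p1) (h.m hc y)).2.2.2.2.1)
    (fun x y p0 p1 => (line h s.tf (ln1 h hc x p0 p1) (h.m hc y)).2.2.2.2.2.1)
    (fun x y p0 p1 => (line h s.tf (ln1 h hc x p0 p1) (h.m hc y)).2.2.2.2.2.2.1)
    (fun x y p0 p1 => (line h s.tf (ln1 h hc x p0 p1) (h.m hc y)).2.2.2.2.2.2.2.1)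
    (fun x y p0 p1 => (line h s.tf (ln1 h hc x p0 p1) (h.m hc y)).2.2.2.2.2.2.2.2.1)
    (fun x y p0 p1 => (line h s.tf (ln1 h hc x p0 p1) (h.m hc y)).2.2.2.2.2.2.2.2.2.1)
    (fun x y p0 p1 => (line h s.tf (ln1 h hc x p0 p1) (h.m hc y)).2.2.2.2.2.2.2.2.2.2.1)
    (fun x y p0 p1 => (line h s.tf (ln1 h hc x p0 p1) (h.m hc y)).2.2.2.2.2.2.2.2.2.2.2.1)
    (fun x y p0 p1 => (line h s.tf (ln1 h hc x p0 p1) (h.m hc y)).2.2.2.2.2.2.2.2.2.2.2.2.1)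
    (fun x y p0 p1 => (line h s.tf (ln1 h hc x p0 p1) (h.m hc y)).2.2.2.2.2.2.2.2.2.2.2.2.2)
    (fun x p0 p1 p2 => s.cen x p0 p1 p2)
    (fun x y p0 p1 p2 => s.cen _ p0 p1 p2)
    (hea)
    (heb)
    (fun x => (pr h (h.m ha x) ha).1)
    (fun x => (pr h (h.m ha x) ha).2.1)
    (fun x => (pr h (h.m ha x) ha).2.2.1)
    (fun x => (pr h (h.m ha x) ha).2.2.2)
    (fun x => (pr h (h.m ha x) hb).1)
    (fun x => (pr h (h.m ha x) hb).2.1)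
    (fun x => (pr h (h.m ha x) hb).2.2.1)
    (fun x => (pr h (h.m ha x) hb).2.2.2)
    (fun x => (pr h (h.m ha x) hc).1)
    (fun x => (pr h (h.m ha x) hc).2.1)
    (fun x => (pr h (h.m ha x) hc).2.2.1)
    (fun x => (pr h (h.m ha x) hc).2.2.2)
    (fun x => (pr h (h.m hb x) ha).1)
    (fun x => (pr h (h.m hb x) ha).2.1)
    (fun x => (pr h (h.m hb x) ha).2.2.1)
    (fun x => (pr h (h.m hb x) ha).2.2.2)
    (fun x => (pr h (h.m hb x) hb).1)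
    (fun x => (pr h (h.m hb x) hb).2.1)
    (fun x => (pr h (h.m hb x) hb).2.2.1)
    (fun x => (pr h (h.m hb x) hb).2.2.2)
    (fun x => (pr h (h.m hb x) hc).1)
    (fun x => (pr h (h.m hb x) hc).2.1)
    (fun x => (pr h (h.m hb x) hc).2.2.1)
    (fun x => (pr h (h.m hb x) hc).2.2.2)
    (fun x => (pr h (h.m hc x) ha).1)
    (fun x => (pr h (h.m hc x) ha).2.1)
    (fun x => (pr h (h.m hc x) ha).2.2.1)
    (fun x => (pr h (h.m hc x) ha).2.2.2)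
    (fun x => (pr h (h.m hc x) hb).1)
    (fun x => (pr h (h.m hc x) hb).2.1)
    (fun x => (pr h (h.m hc x) hb).2.2.1)
    (fun x => (pr h (h.m hc x) hb).2.2.2)
    (fun x => (pr h (h.m hc x) hc).1)
    (fun x => (pr h (h.m hc x) hc).2.1)
    (fun x => (pr h (h.m hc x) hc).2.2.1)
    (fun x => (pr h (h.m hc x) hc).2.2.2)
    (fun x => (ee h s.tf ha _).2.2.2.2.2.2.2.2.2.2.2.2.2.2.2.2.2.2.2.2.2.2.2.2.2.2.2.2.2.2.2.2.2.1)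
    (fun x => (ee h s.tf ha _).2.2.2.2.2.2.2.2.2.2.2.2.2.2.2.2.2.2.2.2.2.2.2.2.2.2.2.2.2.2.2.2.2.2)
    (fun x => by simpa only [inv_inv] using (ee h s.tf (h.inv ha) x).2.2.2.2.2.2.2.2.2.2.2.2.2.2.2.2.2.2.2.2.2.2.2.2.2.2.2.2.2.2.2.2.2.1)
    (fun x => by simpa only [inv_inv] using (ee h s.tf (h.inv ha) x).2.2.2.2.2.2.2.2.2.2.2.2.2.2.2.2.2.2.2.2.2.2.2.2.2.2.2.2.2.2.2.2.2.2)
    (fun x => (ee h s.tf ha _).1)
    (fun x => (ee h s.tf ha _).2.1)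
    (fun x => (ee h s.tf ha _).2.2.1)
    (fun x => (ee h s.tf ha _).2.2.2.1)
    (fun x => (ee h s.tf ha _).2.2.2.2.1)
    (fun x => (ee h s.tf ha _).2.2.2.2.2.1)
    (fun x => (ee h s.tf ha _).2.2.2.2.2.2.2.2.2.1)
    (fun x => (ee h s.tf ha _).2.2.2.2.2.2.2.2.2.2.1)
    (fun x => (ee h s.tf ha _).2.2.2.2.2.2.2.2.2.2.2.1)
    (fun x => (ee h s.tf ha _).2.2.2.2.2.2.2.2.2.2.2.2.1)
    (fun x => (ee h s.tf ha _).2.2.2.2.2.2.2.2.2.2.2.2.2.2.1)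
    (fun x => (ee h s.tf ha _).2.2.2.2.2.2.2.2.2.2.2.2.2.2.2.1)
    (fun x => (ee h s.tf ha _).2.2.2.2.2.2.2.2.2.2.2.2.2.2.2.2.1)
    (fun x => (ee h s.tf ha _).2.2.2.2.2.2.2.2.2.2.2.2.2.2.2.2.2.1)
    (fun x => (ee h s.tf ha _).2.2.2.2.2.2.2.2.2.2.2.2.2.2.2.2.2.2.1)
    (fun x => (ee h s.tf ha _).2.2.2.2.2.2.2.2.2.2.2.2.2.2.2.2.2.2.2.2.2.2.2.2.2.2.2.1)
    (fun x => (ee h s.tf ha _).2.2.2.2.2.2.2.2.2.2.2.2.2.2.2.2.2.2.2.2.2.2.2.2.2.2.2.2.1)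
    (fun x => (ee h s.tf ha _).2.2.2.2.2.2.2.2.2.2.2.2.2.2.2.2.2.2.2.2.2.2.2.2.2.2.2.2.2.2.2.2.1)
    (fun x => (ee h s.tf hb _).2.2.2.2.2.2.2.2.2.2.2.2.2.2.2.2.2.2.2.2.2.2.2.2.2.2.2.2.2.2.2.2.2.1)
    (fun x => (ee h s.tf hb _).2.2.2.2.2.2.2.2.2.2.2.2.2.2.2.2.2.2.2.2.2.2.2.2.2.2.2.2.2.2.2.2.2.2)
    (fun x => by simpa only [inv_inv] using (ee h s.tf (h.inv hb) x).2.2.2.2.2.2.2.2.2.2.2.2.2.2.2.2.2.2.2.2.2.2.2.2.2.2.2.2.2.2.2.2.2.1)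
    (fun x => by simpa only [inv_inv] using (ee h s.tf (h.inv hb) x).2.2.2.2.2.2.2.2.2.2.2.2.2.2.2.2.2.2.2.2.2.2.2.2.2.2.2.2.2.2.2.2.2.2)
    (fun x => (ee h s.tf hb _).1)
    (fun x => (ee h s.tf hb _).2.1)
    (fun x => (ee h s.tf hb _).2.2.1)
    (fun x => (ee h s.tf hb _).2.2.2.1)
    (fun x => (ee h s.tf hb _).2.2.2.2.1)
    (fun x => (ee h s.tf hb _).2.2.2.2.2.1)
    (fun x => (ee h s.tf hb _).2.2.2.2.2.2.1)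
    (fun x => (ee h s.tf hb _).2.2.2.2.2.2.2.2.1)
    (fun x => (ee h s.tf hb _).2.2.2.2.2.2.2.2.2.1)
    (fun x => (ee h s.tf hb _).2.2.2.2.2.2.2.2.2.2.1)
    (fun x => (ee h s.tf hb _).2.2.2.2.2.2.2.2.2.2.2.1)
    (fun x => (ee h s.tf hb _).2.2.2.2.2.2.2.2.2.2.2.2.1)
    (fun x => (ee h s.tf hb _).2.2.2.2.2.2.2.2.2.2.2.2.2.1)
    (fun x => (ee h s.tf hb _).2.2.2.2.2.2.2.2.2.2.2.2.2.2.1)
    (fun x => (ee h s.tf hb _).2.2.2.2.2.2.2.2.2.2.2.2.2.2.2.1)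
    (fun x => (ee h s.tf hb _).2.2.2.2.2.2.2.2.2.2.2.2.2.2.2.2.1)
    (fun x => (ee h s.tf hb _).2.2.2.2.2.2.2.2.2.2.2.2.2.2.2.2.2.1)
    (fun x => (ee h s.tf hb _).2.2.2.2.2.2.2.2.2.2.2.2.2.2.2.2.2.2.1)
    (fun x => (ee h s.tf hb _).2.2.2.2.2.2.2.2.2.2.2.2.2.2.2.2.2.2.2.2.1)
    (fun x => (ee h s.tf hb _).2.2.2.2.2.2.2.2.2.2.2.2.2.2.2.2.2.2.2.2.2.2.2.1)
    (fun x => (ee h s.tf hb _).2.2.2.2.2.2.2.2.2.2.2.2.2.2.2.2.2.2.2.2.2.2.2.2.2.2.1)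
    (fun x => (ee h s.tf hb _).2.2.2.2.2.2.2.2.2.2.2.2.2.2.2.2.2.2.2.2.2.2.2.2.2.2.2.1)
    (fun x => (ee h s.tf hb _).2.2.2.2.2.2.2.2.2.2.2.2.2.2.2.2.2.2.2.2.2.2.2.2.2.2.2.2.1)
    (fun x => (ee h s.tf hb _).2.2.2.2.2.2.2.2.2.2.2.2.2.2.2.2.2.2.2.2.2.2.2.2.2.2.2.2.2.1)
    (fun x => (ee h s.tf hb _).2.2.2.2.2.2.2.2.2.2.2.2.2.2.2.2.2.2.2.2.2.2.2.2.2.2.2.2.2.2.1)
    (fun x => (ee h s.tf hb _).2.2.2.2.2.2.2.2.2.2.2.2.2.2.2.2.2.2.2.2.2.2.2.2.2.2.2.2.2.2.2.1)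
    (fun x => (ee h s.tf hc _).2.2.2.2.2.2.2.2.2.2.2.2.2.2.2.2.2.2.2.2.2.2.2.2.2.2.2.2.2.2.2.2.2.1)
    (fun x => (ee h s.tf hc _).2.2.2.2.2.2.2.2.2.2.2.2.2.2.2.2.2.2.2.2.2.2.2.2.2.2.2.2.2.2.2.2.2.2)
    (fun x => by simpa only [inv_inv] using (ee h s.tf (h.inv hc) x).2.2.2.2.2.2.2.2.2.2.2.2.2.2.2.2.2.2.2.2.2.2.2.2.2.2.2.2.2.2.2.2.2.1)
    (fun x => by simpa only [inv_inv] using (ee h s.tf (h.inv hc) x).2.2.2.2.2.2.2.2.2.2.2.2.2.2.2.2.2.2.2.2.2.2.2.2.2.2.2.2.2.2.2.2.2.2)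
    (fun x => (ee h s.tf hc _).1)
    (fun x => (ee h s.tf hc _).2.1)
    (fun x => (ee h s.tf hc _).2.2.1)
    (fun x => (ee h s.tf hc _).2.2.2.1)
    (fun x => (ee h s.tf hc _).2.2.2.2.1)
    (fun x => (ee h s.tf hc _).2.2.2.2.2.1)
    (fun x => (ee h s.tf hc _).2.2.2.2.2.2.1)
    (fun x => (ee h s.tf hc _).2.2.2.2.2.2.2.1)
    (fun x => (ee h s.tf hc _).2.2.2.2.2.2.2.2.1)
    (fun x => (ee h s.tf hc _).2.2.2.2.2.2.2.2.2.1)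
    (fun x => (ee h s.tf hc _).2.2.2.2.2.2.2.2.2.2.1)
    (fun x => (ee h s.tf hc _).2.2.2.2.2.2.2.2.2.2.2.1)
    (fun x => (ee h s.tf hc _).2.2.2.2.2.2.2.2.2.2.2.2.1)
    (fun x => (ee h s.tf hc _).2.2.2.2.2.2.2.2.2.2.2.2.2.1)
    (fun x => (ee h s.tf hc _).2.2.2.2.2.2.2.2.2.2.2.2.2.2.1)
    (fun x => (ee h s.tf hc _).2.2.2.2.2.2.2.2.2.2.2.2.2.2.2.1)
    (fun x => (ee h s.tf hc _).2.2.2.2.2.2.2.2.2.2.2.2.2.2.2.2.1)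
    (fun x => (ee h s.tf hc _).2.2.2.2.2.2.2.2.2.2.2.2.2.2.2.2.2.1)
    (fun x => (ee h s.tf hc _).2.2.2.2.2.2.2.2.2.2.2.2.2.2.2.2.2.2.2.2.2.1)
    (fun x => (ee h s.tf hc _).2.2.2.2.2.2.2.2.2.2.2.2.2.2.2.2.2.2.2.2.2.2.1)
    (fun x => (ee h s.tf hc _).2.2.2.2.2.2.2.2.2.2.2.2.2.2.2.2.2.2.2.2.2.2.2.2.2.2.1)
    (fun x => (ee h s.tf hc _).2.2.2.2.2.2.2.2.2.2.2.2.2.2.2.2.2.2.2.2.2.2.2.2.2.2.2.1)
    (fun x => (ee h s.tf hc _).2.2.2.2.2.2.2.2.2.2.2.2.2.2.2.2.2.2.2.2.2.2.2.2.2.2.2.2.1)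
    (fun x => (ee h s.tf hc _).2.2.2.2.2.2.2.2.2.2.2.2.2.2.2.2.2.2.2.2.2.2.2.2.2.2.2.2.2.1)
    (fun x => (ee h s.tf hc _).2.2.2.2.2.2.2.2.2.2.2.2.2.2.2.2.2.2.2.2.2.2.2.2.2.2.2.2.2.2.1)
    (fun x => (ee h s.tf hc _).2.2.2.2.2.2.2.2.2.2.2.2.2.2.2.2.2.2.2.2.2.2.2.2.2.2.2.2.2.2.2.1)
    (fun x => (ee h s.tf hc _).2.2.2.2.2.2.2.2.2.2.2.2.2.2.2.2.2.2.2.2.2.2.2.2.2.2.2.2.2.2.2.2.1)
    (fun x => (line h s.tf (ln1 h ha b hea heb) (h.m hc x)).1)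
    (fun x => (line h s.tf (ln1 h ha b hea heb) (h.m hc x)).2.1)
    (fun x => (line h s.tf (ln1 h ha b hea heb) (h.m hc x)).2.2.1)
    (fun x => (line h s.tf (ln1 h ha b hea heb) (h.m hc x)).2.2.2.1)
    (fun x => (line h s.tf (ln1 h ha b hea heb) (h.m hc x)).2.2.2.2.1)
    (fun x => (line h s.tf (ln1 h ha b hea heb) (h.m hc x)).2.2.2.2.2.1)
    (fun x => (line h s.tf (ln1 h ha b hea heb) (h.m hc x)).2.2.2.2.2.2.1)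
    (fun x => (line h s.tf (ln1 h ha b hea heb) (h.m hc x)).2.2.2.2.2.2.2.1)
    (fun x => (line h s.tf (ln1 h ha b hea heb) (h.m hc x)).2.2.2.2.2.2.2.2.1)
    (fun x => (line h s.tf (ln1 h ha b hea heb) (h.m hc x)).2.2.2.2.2.2.2.2.2.1)
    (fun x => (line h s.tf (ln1 h ha b hea heb) (h.m hc x)).2.2.2.2.2.2.2.2.2.2.1)
    (fun x => (line h s.tf (ln1 h ha b hea heb) (h.m hc x)).2.2.2.2.2.2.2.2.2.2.2.1)
    (fun x => (line h s.tf (ln1 h ha b hea heb) (h.m hc x)).2.2.2.2.2.2.2.2.2.2.2.2.1)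
    (fun x => (line h s.tf (ln1 h ha b hea heb) (h.m hc x)).2.2.2.2.2.2.2.2.2.2.2.2.2)
    (fun x => (line h s.tf (ln2 h hb a heb hea) (h.m hc x)).1)
    (fun x => (line h s.tf (ln2 h hb a heb hea) (h.m hc x)).2.1)
    (fun x => (line h s.tf (ln2 h hb a heb hea) (h.m hc x)).2.2.1)
    (fun x => (line h s.tf (ln2 h hb a heb hea) (h.m hc x)).2.2.2.1)
    (fun x => (line h s.tf (ln2 h hb a heb hea) (h.m hc x)).2.2.2.2.1)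
    (fun x => (line h s.tf (ln2 h hb a heb hea) (h.m hc x)).2.2.2.2.2.1)
    (fun x => (line h s.tf (ln2 h hb a heb hea) (h.m hc x)).2.2.2.2.2.2.1)
    (fun x => (line h s.tf (ln2 h hb a heb hea) (h.m hc x)).2.2.2.2.2.2.2.1)
    (fun x => (line h s.tf (ln2 h hb a heb hea) (h.m hc x)).2.2.2.2.2.2.2.2.1)
    (fun x => (line h s.tf (ln2 h hb a heb hea) (h.m hc x)).2.2.2.2.2.2.2.2.2.1)
    (fun x => (line h s.tf (ln2 h hb a heb hea) (h.m hc x)).2.2.2.2.2.2.2.2.2.2.1)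
    (fun x => (line h s.tf (ln2 h hb a heb hea) (h.m hc x)).2.2.2.2.2.2.2.2.2.2.2.1)
    (fun x => (line h s.tf (ln2 h hb a heb hea) (h.m hc x)).2.2.2.2.2.2.2.2.2.2.2.2.1)
    (fun x => (line h s.tf (ln2 h hb a heb hea) (h.m hc x)).2.2.2.2.2.2.2.2.2.2.2.2.2)

theorem g7b (s : St X a b c) (hea : cm (cm b a) a = 1) (heb : cm (cm b a) b = 1) (hue : cm (cm c (cm b a)) (cm b a) = 1) (hua : cm (cm c (cm b a)) a = 1) (hub : cm (cm c (cm b a)) b = 1) :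
    (cm b a) = (1 : G) :=
  have h := s.gd
  have ha := s.ha
  have hb := s.hb
  have hc := s.hc
  KB.G7b.main a b c
    (fun x y p0 p1 => (line h s.tf (ln1 h ha x p0 p1) (h.m ha y)).1)
    (fun x y p0 p1 => (line h s.tf (ln1 h ha x p0 p1) (h.m ha y)).2.2.1)
    (fun x y p0 p1 => (line h s.tf (ln1 h ha x p0 p1) (h.m ha y)).2.2.2.1)
    (fun x y p0 p1 => (line h s.tf (ln1 h ha x p0 p1) (h.m ha y)).2.2.2.2.2.2.1)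
    (fun x y p0 p1 => (line h s.tf (ln1 h ha x p0 p1) (h.m ha y)).2.2.2.2.2.2.2.2.1)
    (fun x y p0 p1 => (line h s.tf (ln1 h ha x p0 p1) (h.m ha y)).2.2.2.2.2.2.2.2.2.2.1)
    (fun x y p0 p1 => (line h s.tf (ln1 h ha x p0 p1) (h.m ha y)).2.2.2.2.2.2.2.2.2.2.2.2.1)
    (fun x y p0 p1 => (line h s.tf (ln1 h ha x p0 p1) (h.m ha y)).2.2.2.2.2.2.2.2.2.2.2.2.2)
    (fun x y p0 p1 => (line h s.tf (ln1 h ha x p0 p1) (h.m hb y)).1)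
    (fun x y p0 p1 => (line h s.tf (ln1 h ha x p0 p1) (h.m hb y)).2.2.1)
    (fun x y p0 p1 => (line h s.tf (ln1 h ha x p0 p1) (h.m hb y)).2.2.2.1)
    (fun x y p0 p1 => (line h s.tf (ln1 h ha x p0 p1) (h.m hb y)).2.2.2.2.2.1)
    (fun x y p0 p1 => (line h s.tf (ln1 h ha x p0 p1) (h.m hb y)).2.2.2.2.2.2.1)
    (fun x y p0 p1 => (line h s.tf (ln1 h ha x p0 p1) (h.m hb y)).2.2.2.2.2.2.2.2.1)
    (fun x y p0 p1 => (line h s.tf (ln1 h ha x p0 p1) (h.m hb y)).2.2.2.2.2.2.2.2.2.2.1)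
    (fun x y p0 p1 => (line h s.tf (ln1 h ha x p0 p1) (h.m hb y)).2.2.2.2.2.2.2.2.2.2.2.2.1)
    (fun x y p0 p1 => (line h s.tf (ln1 h ha x p0 p1) (h.m hb y)).2.2.2.2.2.2.2.2.2.2.2.2.2)
    (fun x y p0 p1 => (line h s.tf (ln1 h ha x p0 p1) (h.m hc y)).1)
    (fun x y p0 p1 => (line h s.tf (ln1 h ha x p0 p1) (h.m hc y)).2.2.1)
    (fun x y p0 p1 => (line h s.tf (ln1 h ha x p0 p1) (h.m hc y)).2.2.2.1)
    (fun x y p0 p1 => (line h s.tf (ln1 h ha x p0 p1) (h.m hc y)).2.2.2.2.2.1)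
    (fun x y p0 p1 => (line h s.tf (ln1 h ha x p0 p1) (h.m hc y)).2.2.2.2.2.2.1)
    (fun x y p0 p1 => (line h s.tf (ln1 h ha x p0 p1) (h.m hc y)).2.2.2.2.2.2.2.2.1)
    (fun x y p0 p1 => (line h s.tf (ln1 h ha x p0 p1) (h.m hc y)).2.2.2.2.2.2.2.2.2.2.1)
    (fun x y p0 p1 => (line h s.tf (ln1 h ha x p0 p1) (h.m hc y)).2.2.2.2.2.2.2.2.2.2.2.2.1)
    (fun x y p0 p1 => (line h s.tf (ln1 h ha x p0 p1) (h.m hc y)).2.2.2.2.2.2.2.2.2.2.2.2.2)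
    (fun x y p0 p1 => (line h s.tf (ln1 h hb x p0 p1) (h.m ha y)).1)
    (fun x y p0 p1 => (line h s.tf (ln1 h hb x p0 p1) (h.m ha y)).2.2.2.2.2.2.2.2.2.2.2.2.1)
    (fun x y p0 p1 => (line h s.tf (ln1 h hb x p0 p1) (h.m ha y)).2.2.2.2.2.2.2.2.2.2.2.2.2)
    (fun x y p0 p1 => (line h s.tf (ln1 h hb x p0 p1) (h.m hb y)).1)
    (fun x y p0 p1 => (line h s.tf (ln1 h hb x p0 p1) (h.m hb y)).2.2.1)
    (fun x y p0 p1 => (line h s.tf (ln1 h hb x p0 p1) (h.m hb y)).2.2.2.1)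
    (fun x y p0 p1 => (line h s.tf (ln1 h hb x p0 p1) (h.m hb y)).2.2.2.2.2.1)
    (fun x y p0 p1 => (line h s.tf (ln1 h hb x p0 p1) (h.m hb y)).2.2.2.2.2.2.2.2.1)
    (fun x y p0 p1 => (line h s.tf (ln1 h hb x p0 p1) (h.m hb y)).2.2.2.2.2.2.2.2.2.2.1)
    (fun x y p0 p1 => (line h s.tf (ln1 h hb x p0 p1) (h.m hb y)).2.2.2.2.2.2.2.2.2.2.2.2.1)
    (fun x y p0 p1 => (line h s.tf (ln1 h hb x p0 p1) (h.m hb y)).2.2.2.2.2.2.2.2.2.2.2.2.2)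
    (fun x y p0 p1 => (line h s.tf (ln1 h hb x p0 p1) (h.m hc y)).2.2.2.1)
    (fun x y p0 p1 => (line h s.tf (ln1 h hb x p0 p1) (h.m hc y)).2.2.2.2.2.1)
    (fun x y p0 p1 => (line h s.tf (ln1 h hb x p0 p1) (h.m hc y)).2.2.2.2.2.2.2.2.2.2.1)
    (fun x y p0 p1 => (line h s.tf (ln1 h hb x p0 p1) (h.m hc y)).2.2.2.2.2.2.2.2.2.2.2.2.1)
    (fun x y p0 p1 => (line h s.tf (ln1 h hb x p0 p1) (h.m hc y)).2.2.2.2.2.2.2.2.2.2.2.2.2)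
    (fun x y p0 p1 => (line h s.tf (ln1 h hc x p0 p1) (h.m ha y)).2.2.2.2.2.2.2.2.2.2.2.2.1)
    (fun x y p0 p1 => (line h s.tf (ln1 h hc x p0 p1) (h.m ha y)).2.2.2.2.2.2.2.2.2.2.2.2.2)
    (fun x y p0 p1 => (line h s.tf (ln1 h hc x p0 p1) (h.m hb y)).1)
    (fun x y p0 p1 => (line h s.tf (ln1 h hc x p0 p1) (h.m hb y)).2.2.2.2.2.2.2.2.2.2.2.2.1)
    (fun x y p0 p1 => (line h s.tf (ln1 h hc x p0 p1) (h.m hb y)).2.2.2.2.2.2.2.2.2.2.2.2.2)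
    (fun x y p0 p1 => (line h s.tf (ln1 h hc x p0 p1) (h.m hc y)).1)
    (fun x y p0 p1 => (line h s.tf (ln1 h hc x p0 p1) (h.m hc y)).2.2.2.2.2.2.2.2.2.2.2.2.1)
    (fun x y p0 p1 => (line h s.tf (ln1 h hc x p0 p1) (h.m hc y)).2.2.2.2.2.2.2.2.2.2.2.2.2)
    (fun x p0 p1 p2 => s.cen x p0 p1 p2)
    (fun x y p0 p1 p2 => s.cen _ p0 p1 p2)
    (hea)
    (heb)
    (hue)
    (hua)
    (hub)
    (fun x => (pr h (h.m ha x) ha).1)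
    (fun x => (pr h (h.m ha x) ha).2.1)
    (fun x => (pr h (h.m ha x) ha).2.2.1)
    (fun x => (pr h (h.m ha x) ha).2.2.2)
    (fun x => (pr h (h.m ha x) hb).1)
    (fun x => (pr h (h.m ha x) hb).2.1)
    (fun x => (pr h (h.m ha x) hb).2.2.1)
    (fun x => (pr h (h.m ha x) hc).1)
    (fun x => (pr h (h.m ha x) hc).2.1)
    (fun x => (pr h (h.m ha x) hc).2.2.1)
    (fun x => (pr h (h.m ha x) hc).2.2.2)
    (fun x => (pr h (h.m hb x) ha).1)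
    (fun x => (pr h (h.m hb x) ha).2.1)
    (fun x => (pr h (h.m hb x) ha).2.2.1)
    (fun x => (pr h (h.m hb x) hb).1)
    (fun x => (pr h (h.m hb x) hb).2.1)
    (fun x => (pr h (h.m hb x) hb).2.2.1)
    (fun x => (pr h (h.m hb x) hb).2.2.2)
    (fun x => (pr h (h.m hb x) hc).1)
    (fun x => (pr h (h.m hb x) hc).2.1)
    (fun x => (pr h (h.m hb x) hc).2.2.1)
    (fun x => (pr h (h.m hb x) hc).2.2.2)
    (fun x => (pr h (h.m hc x) ha).1)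
    (fun x => (pr h (h.m hc x) ha).2.1)
    (fun x => (pr h (h.m hc x) ha).2.2.1)
    (fun x => (pr h (h.m hc x) ha).2.2.2)
    (fun x => (pr h (h.m hc x) hb).1)
    (fun x => (pr h (h.m hc x) hb).2.1)
    (fun x => (pr h (h.m hc x) hb).2.2.1)
    (fun x => (pr h (h.m hc x) hb).2.2.2)
    (fun x => (pr h (h.m hc x) hc).1)
    (fun x => (pr h (h.m hc x) hc).2.1)
    (fun x => (pr h (h.m hc x) hc).2.2.1)
    (fun x => (pr h (h.m hc x) hc).2.2.2)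
    (fun x => (ee h s.tf ha _).2.2.2.2.2.2.2.2.2.2.2.2.2.2.2.2.2.2.2.2.2.2.2.2.2.2.2.2.2.2.2.2.2.1)
    (fun x => (ee h s.tf ha _).2.2.2.2.2.2.2.2.2.2.2.2.2.2.2.2.2.2.2.2.2.2.2.2.2.2.2.2.2.2.2.2.2.2)
    (fun x => by simpa only [inv_inv] using (ee h s.tf (h.inv ha) x).2.2.2.2.2.2.2.2.2.2.2.2.2.2.2.2.2.2.2.2.2.2.2.2.2.2.2.2.2.2.2.2.2.1)
    (fun x => by simpa only [inv_inv] using (ee h s.tf (h.inv ha) x).2.2.2.2.2.2.2.2.2.2.2.2.2.2.2.2.2.2.2.2.2.2.2.2.2.2.2.2.2.2.2.2.2.2)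
    (fun x => (ee h s.tf ha _).1)
    (fun x => (ee h s.tf ha _).2.1)
    (fun x => (ee h s.tf ha _).2.2.2.1)
    (fun x => (ee h s.tf ha _).2.2.2.2.1)
    (fun x => (ee h s.tf ha _).2.2.2.2.2.2.2.2.2.1)
    (fun x => (ee h s.tf ha _).2.2.2.2.2.2.2.2.2.2.1)
    (fun x => (ee h s.tf ha _).2.2.2.2.2.2.2.2.2.2.2.1)
    (fun x => (ee h s.tf ha _).2.2.2.2.2.2.2.2.2.2.2.2.2.2.2.1)
    (fun x => (ee h s.tf ha _).2.2.2.2.2.2.2.2.2.2.2.2.2.2.2.2.1)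
    (fun x => (ee h s.tf ha _).2.2.2.2.2.2.2.2.2.2.2.2.2.2.2.2.2.1)
    (fun x => (ee h s.tf ha _).2.2.2.2.2.2.2.2.2.2.2.2.2.2.2.2.2.2.1)
    (fun x => (ee h s.tf ha _).2.2.2.2.2.2.2.2.2.2.2.2.2.2.2.2.2.2.2.2.2.2.2.2.2.2.2.1)
    (fun x => (ee h s.tf ha _).2.2.2.2.2.2.2.2.2.2.2.2.2.2.2.2.2.2.2.2.2.2.2.2.2.2.2.2.1)
    (fun x => (ee h s.tf ha _).2.2.2.2.2.2.2.2.2.2.2.2.2.2.2.2.2.2.2.2.2.2.2.2.2.2.2.2.2.2.2.2.1)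
    (fun x => (ee h s.tf hb _).2.2.2.2.2.2.2.2.2.2.2.2.2.2.2.2.2.2.2.2.2.2.2.2.2.2.2.2.2.2.2.2.2.1)
    (fun x => (ee h s.tf hb _).2.2.2.2.2.2.2.2.2.2.2.2.2.2.2.2.2.2.2.2.2.2.2.2.2.2.2.2.2.2.2.2.2.2)
    (fun x => by simpa only [inv_inv] using (ee h s.tf (h.inv hb) x).2.2.2.2.2.2.2.2.2.2.2.2.2.2.2.2.2.2.2.2.2.2.2.2.2.2.2.2.2.2.2.2.2.1)
    (fun x => by simpa only [inv_inv] using (ee h s.tf (h.inv hb) x).2.2.2.2.2.2.2.2.2.2.2.2.2.2.2.2.2.2.2.2.2.2.2.2.2.2.2.2.2.2.2.2.2.2)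
    (fun x => (ee h s.tf hb _).1)
    (fun x => (ee h s.tf hb _).2.1)
    (fun x => (ee h s.tf hb _).2.2.2.1)
    (fun x => (ee h s.tf hb _).2.2.2.2.1)
    (fun x => (ee h s.tf hb _).2.2.2.2.2.2.1)
    (fun x => (ee h s.tf hb _).2.2.2.2.2.2.2.2.1)
    (fun x => (ee h s.tf hb _).2.2.2.2.2.2.2.2.2.1)
    (fun x => (ee h s.tf hb _).2.2.2.2.2.2.2.2.2.2.1)
    (fun x => (ee h s.tf hb _).2.2.2.2.2.2.2.2.2.2.2.2.1)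
    (fun x => (ee h s.tf hb _).2.2.2.2.2.2.2.2.2.2.2.2.2.1)
    (fun x => (ee h s.tf hb _).2.2.2.2.2.2.2.2.2.2.2.2.2.2.2.1)
    (fun x => (ee h s.tf hb _).2.2.2.2.2.2.2.2.2.2.2.2.2.2.2.2.1)
    (fun x => (ee h s.tf hb _).2.2.2.2.2.2.2.2.2.2.2.2.2.2.2.2.2.1)
    (fun x => (ee h s.tf hb _).2.2.2.2.2.2.2.2.2.2.2.2.2.2.2.2.2.2.2.2.2.2.2.2.2.2.1)
    (fun x => (ee h s.tf hb _).2.2.2.2.2.2.2.2.2.2.2.2.2.2.2.2.2.2.2.2.2.2.2.2.2.2.2.1)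
    (fun x => (ee h s.tf hb _).2.2.2.2.2.2.2.2.2.2.2.2.2.2.2.2.2.2.2.2.2.2.2.2.2.2.2.2.1)
    (fun x => (ee h s.tf hb _).2.2.2.2.2.2.2.2.2.2.2.2.2.2.2.2.2.2.2.2.2.2.2.2.2.2.2.2.2.1)
    (fun x => (ee h s.tf hb _).2.2.2.2.2.2.2.2.2.2.2.2.2.2.2.2.2.2.2.2.2.2.2.2.2.2.2.2.2.2.1)
    (fun x => (ee h s.tf hb _).2.2.2.2.2.2.2.2.2.2.2.2.2.2.2.2.2.2.2.2.2.2.2.2.2.2.2.2.2.2.2.1)
    (fun x => (ee h s.tf hc _).2.2.2.2.2.2.2.2.2.2.2.2.2.2.2.2.2.2.2.2.2.2.2.2.2.2.2.2.2.2.2.2.2.2)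
    (fun x => by simpa only [inv_inv] using (ee h s.tf (h.inv hc) x).2.2.2.2.2.2.2.2.2.2.2.2.2.2.2.2.2.2.2.2.2.2.2.2.2.2.2.2.2.2.2.2.2.1)
    (fun x => by simpa only [inv_inv] using (ee h s.tf (h.inv hc) x).2.2.2.2.2.2.2.2.2.2.2.2.2.2.2.2.2.2.2.2.2.2.2.2.2.2.2.2.2.2.2.2.2.2)
    (fun x => (ee h s.tf hc _).1)
    (fun x => (ee h s.tf hc _).2.1)
    (fun x => (ee h s.tf hc _).2.2.1)
    (fun x => (ee h s.tf hc _).2.2.2.1)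
    (fun x => (ee h s.tf hc _).2.2.2.2.2.1)
    (fun x => (ee h s.tf hc _).2.2.2.2.2.2.1)
    (fun x => (ee h s.tf hc _).2.2.2.2.2.2.2.1)
    (fun x => (ee h s.tf hc _).2.2.2.2.2.2.2.2.1)
    (fun x => (ee h s.tf hc _).2.2.2.2.2.2.2.2.2.1)
    (fun x => (ee h s.tf hc _).2.2.2.2.2.2.2.2.2.2.2.1)
    (fun x => (ee h s.tf hc _).2.2.2.2.2.2.2.2.2.2.2.2.1)
    (fun x => (ee h s.tf hc _).2.2.2.2.2.2.2.2.2.2.2.2.2.1)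
    (fun x => (ee h s.tf hc _).2.2.2.2.2.2.2.2.2.2.2.2.2.2.1)
    (fun x => (ee h s.tf hc _).2.2.2.2.2.2.2.2.2.2.2.2.2.2.2.1)
    (fun x => (ee h s.tf hc _).2.2.2.2.2.2.2.2.2.2.2.2.2.2.2.2.1)
    (fun x => (ee h s.tf hc _).2.2.2.2.2.2.2.2.2.2.2.2.2.2.2.2.2.1)
    (fun x => (ee h s.tf hc _).2.2.2.2.2.2.2.2.2.2.2.2.2.2.2.2.2.2.2.2.2.1)
    (fun x => (ee h s.tf hc _).2.2.2.2.2.2.2.2.2.2.2.2.2.2.2.2.2.2.2.2.2.2.2.2.2.2.1)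
    (fun x => (ee h s.tf hc _).2.2.2.2.2.2.2.2.2.2.2.2.2.2.2.2.2.2.2.2.2.2.2.2.2.2.2.1)
    (fun x => (ee h s.tf hc _).2.2.2.2.2.2.2.2.2.2.2.2.2.2.2.2.2.2.2.2.2.2.2.2.2.2.2.2.1)
    (fun x => (ee h s.tf hc _).2.2.2.2.2.2.2.2.2.2.2.2.2.2.2.2.2.2.2.2.2.2.2.2.2.2.2.2.2.1)
    (fun x => (ee h s.tf hc _).2.2.2.2.2.2.2.2.2.2.2.2.2.2.2.2.2.2.2.2.2.2.2.2.2.2.2.2.2.2.1)
    (fun x => (ee h s.tf hc _).2.2.2.2.2.2.2.2.2.2.2.2.2.2.2.2.2.2.2.2.2.2.2.2.2.2.2.2.2.2.2.1)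
    (fun x => (ee h s.tf hc _).2.2.2.2.2.2.2.2.2.2.2.2.2.2.2.2.2.2.2.2.2.2.2.2.2.2.2.2.2.2.2.2.1)
    (fun x => (line h s.tf (ln1 h ha b hea heb) (h.m hc x)).1)
    (fun x => (line h s.tf (ln1 h ha b hea heb) (h.m hc x)).2.1)
    (fun x => (line h s.tf (ln1 h ha b hea heb) (h.m hc x)).2.2.1)
    (fun x => (line h s.tf (ln1 h ha b hea heb) (h.m hc x)).2.2.2.1)
    (fun x => (line h s.tf (ln1 h ha b hea heb) (h.m hc x)).2.2.2.2.1)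
    (fun x => (line h s.tf (ln1 h ha b hea heb) (h.m hc x)).2.2.2.2.2.1)
    (fun x => (line h s.tf (ln1 h ha b hea heb) (h.m hc x)).2.2.2.2.2.2.1)
    (fun x => (line h s.tf (ln1 h ha b hea heb) (h.m hc x)).2.2.2.2.2.2.2.1)
    (fun x => (line h s.tf (ln1 h ha b hea heb) (h.m hc x)).2.2.2.2.2.2.2.2.1)
    (fun x => (line h s.tf (ln1 h ha b hea heb) (h.m hc x)).2.2.2.2.2.2.2.2.2.1)
    (fun x => (line h s.tf (ln1 h ha b hea heb) (h.m hc x)).2.2.2.2.2.2.2.2.2.2.1)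
    (fun x => (line h s.tf (ln1 h ha b hea heb) (h.m hc x)).2.2.2.2.2.2.2.2.2.2.2.1)
    (fun x => (line h s.tf (ln1 h ha b hea heb) (h.m hc x)).2.2.2.2.2.2.2.2.2.2.2.2.1)
    (fun x => (line h s.tf (ln1 h ha b hea heb) (h.m hc x)).2.2.2.2.2.2.2.2.2.2.2.2.2)
    (fun x => (line h s.tf (ln2 h hb a heb hea) (h.m hc x)).1)
    (fun x => (line h s.tf (ln2 h hb a heb hea) (h.m hc x)).2.1)
    (fun x => (line h s.tf (ln2 h hb a heb hea) (h.m hc x)).2.2.1)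
    (fun x => (line h s.tf (ln2 h hb a heb hea) (h.m hc x)).2.2.2.1)
    (fun x => (line h s.tf (ln2 h hb a heb hea) (h.m hc x)).2.2.2.2.1)
    (fun x => (line h s.tf (ln2 h hb a heb hea) (h.m hc x)).2.2.2.2.2.1)
    (fun x => (line h s.tf (ln2 h hb a heb hea) (h.m hc x)).2.2.2.2.2.2.1)
    (fun x => (line h s.tf (ln2 h hb a heb hea) (h.m hc x)).2.2.2.2.2.2.2.1)
    (fun x => (line h s.tf (ln2 h hb a heb hea) (h.m hc x)).2.2.2.2.2.2.2.2.1)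
    (fun x => (line h s.tf (ln2 h hb a heb hea) (h.m hc x)).2.2.2.2.2.2.2.2.2.1)
    (fun x => (line h s.tf (ln2 h hb a heb hea) (h.m hc x)).2.2.2.2.2.2.2.2.2.2.1)
    (fun x => (line h s.tf (ln2 h hb a heb hea) (h.m hc x)).2.2.2.2.2.2.2.2.2.2.2.1)
    (fun x => (line h s.tf (ln2 h hb a heb hea) (h.m hc x)).2.2.2.2.2.2.2.2.2.2.2.2.1)
    (fun x => (line h s.tf (ln2 h hb a heb hea) (h.m hc x)).2.2.2.2.2.2.2.2.2.2.2.2.2)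

theorem t7st (s : St X a b c) (p : P2 a b) : a = 1 ∧ b = 1 ∧ c = 1 := by
  have hea : cm (cm b a) a = 1 := cm1.mpr p.symm.2
  have heb : cm (cm b a) b = 1 := cm1.mpr p.symm.1
  obtain ⟨h1, h2, h3⟩ := g7a s hea heb
  exact t5st s (cm1.mp (g7b s hea heb h1 h2 h3)).symm

theorem t7 (h : Gd X) (ha : a ∈ X) (hb : b ∈ X) (p : P2 a b) (hc : c ∈ X) :
    cm (cm c (cm a b)) (cm a b) = (1 : G) ∧
    cm (cm (cm c (cm a b)) c) c = (1 : G) ∧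
    cm (cm (cm c (cm a b)) c) (cm a b) = (1 : G) :=
  have hK : Subgroup.closure ({a, b, c} : Set G) ≤ Subgroup.closure X :=
    Subgroup.closure_mono (by rintro t (rfl | rfl | rfl) <;> assumption)
  KB.GT7.main _ (nil_three h ha hb hc fun _ _ _ _ _ _ s _ k => t7st s (k p)) a b c
    (Subgroup.subset_closure (by simp)) (Subgroup.subset_closure (by simp))
    (Subgroup.subset_closure (by simp)) (fun x hx => h.tf x (hK hx)) (cm1.mpr p.1) (cm1.mpr p.2)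
    (fun x _ => r4 h ha x) (fun x _ => r4 h (h.inv ha) x) (fun x _ => r4 h hb x) (fun x _ => r4 h (h.inv hb) x) (fun x _ => r4 h hc x) (fun x _ => r4 h (h.inv hc) x)
    (fun x _ => (pr h (h.m ha x) hb).1) (fun x _ => (pr h (h.m ha x) hb).2.1) (fun x _ => (pr h (h.m ha x) hb).2.2.2)
    (fun x _ => (pr h (h.m ha x) hc).1) (fun x _ => (pr h (h.m ha x) hc).2.1) (fun x _ => (pr h (h.m ha x) hc).2.2.2)
    (fun x _ => (pr h (h.m hb x) hc).1) (fun x _ => (pr h (h.m hb x) hc).2.1) (fun x _ => (pr h (h.m hb x) hc).2.2.2)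

theorem gd_triv (h : Gd X) (hp : HP G = ⊥) : ∀ x ∈ X, x = 1 :=
  T4.lattice hp h.cj h.pw h.cl h.tf fun _ ha _ hb p _ hc => t7 h ha hb p hc

/-- the generic case -/
theorem sgen (G : Type u) [Group G] (a : G) (hp : HP G = ⊥) (hre : ∀ n : ℤ, RE 4 (a ^ n))
    (hcl : ∀ u ∈ cls a, ∀ v ∈ cls a, Cl3 ({u, v} : Set G))
    (htf : ∀ x ∈ Subgroup.closure (cls a), x ^ 6 = 1 → x = 1) : a = 1 := by
  let X : Set G := {y | ∃ x ∈ cls a, ∃ n : ℤ, y = x ^ n}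
  have sub : X ⊆ Subgroup.closure (cls a) := by
    rintro _ ⟨x, hx, n, rfl⟩
    exact zpow_mem (Subgroup.subset_closure hx) n
  refine gd_triv (X := X) ⟨?_, ?_, ?_, ?_, ?_⟩ hp a ⟨a, self_mem_cls a, 1, by simp⟩
  · rintro _ ⟨x, hx, n, rfl⟩ g
    exact ⟨_, cj_cls a x hx g, n, by simpa using (conj_zpow (i := n) (a := g⁻¹) (b := x)).symm⟩
  · rintro _ ⟨x, hx, n, rfl⟩ m
    exact ⟨x, hx, n * m, by rw [zpow_mul]⟩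
  · rintro _ ⟨_, ⟨g, rfl⟩, n, rfl⟩
    have : (g⁻¹ * a * g) ^ n = g⁻¹ * a ^ n * g := by
      simpa using conj_zpow (i := n) (a := g⁻¹) (b := a)
    rw [this]
    exact (hre n).cj g
  · rintro _ ⟨x, hx, n, rfl⟩ _ ⟨y, hy, m, rfl⟩
    refine (hcl x hx y hy).closure.mono ?_
    rintro t (rfl | rfl)
    · exact zpow_mem (Subgroup.subset_closure (by simp)) n
    · exact zpow_mem (Subgroup.subset_closure (by simp)) m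
  · exact fun x hx => htf x ((Subgroup.closure_le _).mpr sub hx)

end Pool.Agent.P.MP_9682d1_al.T
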